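import Pool.Agent.Helper89K9.NX.Sys

/-!
# From assignments to integral solutions
-/

set_option autoImplicit false

namespace Pool.Agent.Helper89K9.NX

open Pool.Agent.NPC Pool.Agent.NPC.CL Pool.Agent.H528R2

theorem four_sq (m : ℤ) (h : 0 ≤ m) :
    ∃ r : ℕ → ℤ, r 0 * r 0 + r 1 * r 1 + r 2 * r 2 + r 3 * r 3 = m := by
  obtain ⟨a, b, c, d, hs⟩ := Nat.sum_four_squares m.toNat
  refine ⟨fun i => match i with
    | 0 => a
    | 1 => b
    | 2 => c
    | _ => d, ?_⟩
  have : ((m.toNat : ℕ) : ℤ) = m := Int.toNat_of_nonneg h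
  rw [← this, ← hs]
  push_cast
  ring

theorem common_den (v : ℕ → ℚ) (B : ℕ) :
    ∃ (D : ℤ) (Y : ℕ → ℤ), 0 < D ∧ ∀ i < B, (Y i : ℚ) = v i * D := by
  have h : ∃ D : ℤ, 0 < D ∧ ∀ i < B, ∃ y : ℤ, (y : ℚ) = v i * D := by
    induction B with
    | zero => exact ⟨1, one_pos, fun i hi => absurd hi (Nat.not_lt_zero i)⟩
    | succ B ih =>
      obtain ⟨D, hD, h⟩ := ih
      refine ⟨D * (v B).den, mul_pos hD (by exact_mod_cast (v B).pos), fun i hi => ?_⟩
      rcases Nat.lt_succ_iff_lt_or_eq.1 hi with hi | rfl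
      · obtain ⟨y, hy⟩ := h i hi
        refine ⟨y * (v B).den, ?_⟩
        push_cast
        rw [hy]; ring
      · refine ⟨(v i).num * D, ?_⟩
        push_cast
        have h1 : v i * ((v i).den : ℚ) = (v i).num := Rat.mul_den_eq_num (v i)
        rw [← h1]; ring
  obtain ⟨D, hD, h⟩ := h
  choose! Y hY using h
  exact ⟨D, Y, hD, hY⟩

section

variable {Vr : Type}

/-- the auxiliary unknowns -/
def auxv (H sl Y Z M : ℕ → ℤ) : ℕ → ℕ → ℤ
  | 0 => H
  | 1 => sl
  | 2 => Y
  | 3 => Z
  | _ => M

/-- an assignment of the unknowns -/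
def mk (X : ℤ) (t : Vr → ℤ) (a : ℕ → ℕ → ℤ) : Ix Vr → ℤ :=
  Sum.elim (fun _ => X) (Sum.elim t (fun p => a p.1 p.2))

@[simp] theorem mk_x0 (X : ℤ) (t : Vr → ℤ) (a : ℕ → ℕ → ℤ) : mk X t a x0 = X := rfl
@[simp] theorem mk_bv (X : ℤ) (t : Vr → ℤ) (a : ℕ → ℕ → ℤ) (v : Vr) : mk X t a (bv v) = t v := rfl
@[simp] theorem mk_au (X : ℤ) (t : Vr → ℤ) (a : ℕ → ℕ → ℤ) (k i : ℕ) :
    mk X t a (au k i) = a k i := rfl

/-- the value of the homogenised constraint -/
def conV (Y : ℕ → ℤ) (D : ℤ) : ER.Con → ℤ
  | .one i => Y i - D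
  | .add i j k => Y i + Y j - Y k
  | .mul i j k => Y i * Y j - Y k * D

theorem eval_conM (x : Ix Vr → ℤ) (c : ER.Con) :
    eval x (conM c) = conV (fun i => x (au 2 i)) (x (au 4 0)) c := by
  cases c <;> simp only [conM, eval_cons, eval_nil, mval_pos1, mval_neg1, mval_pos2, mval_neg2,
    conV] <;> ring

theorem conV_eq_zero {Y : ℕ → ℤ} {D : ℤ} {v : ℕ → ℚ} {c : ER.Con}
    (hY : ∀ i ∈ c.vars, (Y i : ℚ) = v i * D) (h : HoldsQ v c) : conV Y D c = 0 := by
  have key : ((conV Y D c : ℤ) : ℚ) = 0 := by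
    cases c with
    | one i =>
      simp only [ER.Con.vars, List.mem_singleton, forall_eq] at hY
      simp only [HoldsQ] at h
      simp only [conV]
      push_cast
      rw [hY, h]; ring
    | add i j k =>
      have h1 := hY i (by simp [ER.Con.vars])
      have h2 := hY j (by simp [ER.Con.vars])
      have h3 := hY k (by simp [ER.Con.vars])
      simp only [HoldsQ] at h
      simp only [conV]
      push_cast
      rw [h1, h2, h3, ← h]; ring
    | mul i j k =>
      have h1 := hY i (by simp [ER.Con.vars])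
      have h2 := hY j (by simp [ER.Con.vars])
      have h3 := hY k (by simp [ER.Con.vars])
      simp only [HoldsQ] at h
      simp only [conV]
      push_cast
      rw [h1, h2, h3, ← h]; ring
  exact_mod_cast key

/-- the unknowns which make the denominator nonzero -/
def denM (D : ℤ) (r : ℕ → ℤ) : ℕ → ℤ
  | 0 => D
  | 1 => 1
  | 2 => D
  | j + 3 => r j

theorem den_holds {D : ℤ} {r : ℕ → ℤ}
    (hr : r 0 * r 0 + r 1 * r 1 + r 2 * r 2 + r 3 * r 3 = D * D - 1)
    (x : Ix Vr → ℤ) (hx : ∀ j, x (au 4 j) = denM D r j) :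
    ∀ e ∈ (denEqs : List (Eqn Vr)), eval x e = 0 := by
  intro e he
  simp only [denEqs, List.mem_cons, List.not_mem_nil, or_false] at he
  rcases he with rfl | rfl
  · simp only [eval_cons, eval_nil, mval_pos1, mval_neg2, hx, denM]
    ring
  · simp only [eval_cons, mval_pos2, mval_neg0, eval_sq4, hx]
    simp only [denM]
    linarith

theorem complete {G : List (List (Bool × Vr))} {c : ℕ → Vr} {n : ℕ} {C : List ER.Con}
    {τ : Vr → Bool} (hτ : Holds τ G) {v : ℕ → ℚ} {B : ℕ}
    (hB : ∀ d ∈ C, ∀ i ∈ d.vars, i < B)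
    (hv : ∀ (k : ℕ) (hk : k < C.length), τ (c (n + k)) = true → HoldsQ v C[k]) :
    ∃ x : Ix Vr → ℤ, (∀ e ∈ eqs G c n C, eval x e = 0) ∧
      x x0 = ((valB ((List.range n).map (fun i => τ (c i))) : ℕ) : ℤ) := by
  obtain ⟨D, Y, hD, hY⟩ := common_den v B
  obtain ⟨r, hr⟩ := four_sq (D * D - 1) (by nlinarith)
  have hs : ∀ k : ℕ, ∃ s : ℕ → ℤ, k < G.length →
      s 0 * s 0 + s 1 * s 1 + s 2 * s 2 + s 3 * s 3 =
        ((G.getD k []).map (fun l => if τ l.2 = l.1 then (1 : ℤ) else 0)).sum - 1 := by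
    intro k
    by_cases hk : k < G.length
    · have hmem : G.getD k [] ∈ G := by
        rw [List.getD_eq_getElem?_getD, List.getElem?_eq_getElem hk]
        exact List.getElem_mem hk
      obtain ⟨l, hl, hlτ⟩ := hτ _ hmem
      have h1 : (1 : ℤ) ≤ ((G.getD k []).map (fun l => if τ l.2 = l.1 then (1 : ℤ) else 0)).sum := by
        have h2 := List.single_le_sum (l := (G.getD k []).map
          (fun l => if τ l.2 = l.1 then (1 : ℤ) else 0)) (by
            intro a ha
            obtain ⟨l', _, rfl⟩ := List.mem_map.1 ha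
            split_ifs <;> simp) _ (List.mem_map.2 ⟨l, hl, rfl⟩)
        rw [if_pos hlτ] at h2
        exact h2
      obtain ⟨s, hs⟩ := four_sq _ (sub_nonneg.2 h1)
      exact ⟨s, fun _ => hs⟩
    · exact ⟨fun _ => 0, fun h => absurd h hk⟩
  choose s hs using hs
  let H : ℕ → ℤ := fun i => ((valB (((List.range n).map (fun i => τ (c i))).drop i) : ℕ) : ℤ)
  let sl : ℕ → ℤ := fun j => s (j / 4) (j % 4)
  let Z : ℕ → ℤ := fun k => conV Y D (C.getD k (ER.Con.one 0))
  let t : Vr → ℤ := fun v => if τ v then 1 else 0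
  let x : Ix Vr → ℤ := mk (H 0) t (auxv H sl Y Z (denM D r))
  have hxb : ∀ v, x (bv v) = if τ v then 1 else 0 := fun v => rfl
  have hx4 : ∀ j, x (au 4 j) = denM D r j := fun j => rfl
  have hx3 : ∀ j, x (au 3 j) = Z j := fun j => rfl
  have hx2 : ∀ j, x (au 2 j) = Y j := fun j => rfl
  have hx1 : ∀ j, x (au 1 j) = sl j := fun j => rfl
  have hx0 : ∀ j, x (au 0 j) = H j := fun j => rfl
  refine ⟨x, ?_, by simp [x, H]⟩
  intro e he
  unfold eqs at he
  rcases List.mem_append.1 he with he | he
  · unfold boolEqs at he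
    obtain ⟨cl, _, he⟩ := List.mem_flatMap.1 he
    obtain ⟨l, _, rfl⟩ := List.mem_map.1 he
    simp only [eval_cons, eval_nil, mval_pos2, mval_neg1, hxb]
    cases τ l.2 <;> simp
  rcases List.mem_append.1 he with he | he
  · unfold clEqs at he
    obtain ⟨⟨cl, k⟩, hp, rfl⟩ := List.mem_map.1 he
    have hk := List.mem_zipIdx_iff_getElem?.1 hp
    have hlt : k < G.length := by
      by_contra hge
      rw [List.getElem?_eq_none (by simpa using hge)] at hk
      exact absurd hk (by simp)
    have hg : G.getD k [] = cl := by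
      rw [List.getD_eq_getElem?_getD]
      have hk' : G[k]? = some cl := hk
      rw [hk']
      rfl
    have h1 := hs k hlt
    rw [hg] at h1
    rw [eval_append, eval_cons, mval_neg0, eval_sq4, eval_lits x τ cl (fun l _ => hxb l.2)]
    simp only [hx1, sl]
    rw [show 4 * k / 4 = k by omega, show 4 * k % 4 = 0 by omega,
      show (4 * k + 1) / 4 = k by omega, show (4 * k + 1) % 4 = 1 by omega,
      show (4 * k + 2) / 4 = k by omega, show (4 * k + 2) % 4 = 2 by omega,
      show (4 * k + 3) / 4 = k by omega, show (4 * k + 3) % 4 = 3 by omega]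
    linarith
  rcases List.mem_append.1 he with he | he
  · unfold hornEqs at he
    rcases List.mem_cons.1 he with rfl | he
    · simp only [eval_cons, eval_nil, mval_pos1, mval_neg1, hx0]
      simp [x]
    rcases List.mem_cons.1 he with rfl | he
    · simp only [eval_cons, eval_nil, mval_pos1, hx0, H]
      rw [List.drop_of_length_le (by simp)]
      simp
    · obtain ⟨i, hi, rfl⟩ := List.mem_map.1 he
      rw [List.mem_range] at hi
      simp only [eval_cons, eval_nil, mval_pos1, mval_neg1, hx0, hxb, H]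
      have hlt : i < ((List.range n).map (fun i => τ (c i))).length := by simpa using hi
      rw [List.drop_eq_getElem_cons hlt, valB_cons]
      simp only [List.getElem_map, List.getElem_range]
      cases τ (c i) <;> push_cast <;> simp <;> ring
  rcases List.mem_append.1 he with he | he
  · unfold candEqs at he
    obtain ⟨⟨d, k⟩, hp, he⟩ := List.mem_flatMap.1 he
    have hk := List.mem_zipIdx_iff_getElem?.1 hp
    have hlt : k < C.length := by
      by_contra hge
      rw [List.getElem?_eq_none (by simpa using hge)] at hk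
      exact absurd hk (by simp)
    have hk' : C[k]? = some d := hk
    have hg : C.getD k (ER.Con.one 0) = d := by
      rw [List.getD_eq_getElem?_getD, hk']
      rfl
    have hd : C[k] = d := by
      rw [List.getElem?_eq_getElem hlt] at hk'
      exact Option.some_injective _ hk'
    simp only [List.mem_cons, List.not_mem_nil, or_false] at he
    rcases he with rfl | rfl
    · rw [eval_cons, mval_neg1, eval_conM, hx3]
      simp only [Z, hg, hx2]
      have e4 : x (au 4 0) = D := rfl
      rw [e4]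
      ring
    · simp only [eval_cons, eval_nil, mval_pos2, hxb, hx3]
      cases hτk : τ (c (n + k)) with
      | false => simp
      | true =>
        have h1 := hv k hlt hτk
        rw [hd] at h1
        have h2 : Z k = 0 := by
          simp only [Z, hg]
          exact conV_eq_zero (fun i hi => hY i (hB d (hd ▸ List.getElem_mem hlt) i hi)) h1
        rw [h2]
        simp
  · exact den_holds hr x hx4 e he

end

end Pool.Agent.Helper89K9.NX
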