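import Pool.Agent.Helper89K9.NX.Ren

/-!
# Quadratic equations, sums of squares, quartic polynomials
-/

set_option autoImplicit false

namespace Pool.Agent.Helper89K9.NX

open Pool.Agent.NPC Pool.Agent.H528R2

/-- The polynomial with integer coefficients given by a polynomial expression. -/
noncomputable def toMv : ER.Tm → MvPolynomial ℕ ℤ
  | .var i => MvPolynomial.X i
  | .zero => 0
  | .one => 1
  | .add s t => toMv s + toMv t
  | .neg t => - toMv t
  | .mul s t => toMv s * toMv t

theorem totalDegree_toMv (t : ER.Tm) : (toMv t).totalDegree ≤ H573Q.tdeg t := by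
  induction t with
  | var i => exact (MvPolynomial.totalDegree_X (R := ℤ) i).le
  | zero => simp [toMv]
  | one => simp [toMv]
  | add s t hs ht =>
    exact (MvPolynomial.totalDegree_add _ _).trans (max_le_max hs ht)
  | neg t ht =>
    change (- toMv t).totalDegree ≤ H573Q.tdeg t
    rw [MvPolynomial.totalDegree_neg]
    exact ht
  | mul s t hs ht =>
    exact (MvPolynomial.totalDegree_mul _ _).trans (Nat.add_le_add hs ht)

/-! ### equations -/

section

variable {I : Type} {R : Type} [CommRing R]

/-- the value of a signed monomial (`true` is minus) -/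
def mval (x : I → R) (m : Bool × List I) : R := (if m.1 then -1 else 1) * (m.2.map x).prod

/-- the value of a list of signed monomials -/
def eval (x : I → R) (e : List (Bool × List I)) : R := (e.map (mval x)).sum

@[simp] theorem eval_nil (x : I → R) : eval x [] = 0 := rfl

@[simp] theorem eval_cons (x : I → R) (m : Bool × List I) (e : List (Bool × List I)) :
    eval x (m :: e) = mval x m + eval x e := by simp [eval]

@[simp] theorem eval_append (x : I → R) (e e' : List (Bool × List I)) :
    eval x (e ++ e') = eval x e + eval x e' := by simp [eval]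

theorem eval_intCast (x : I → ℤ) (e : List (Bool × List I)) :
    eval (fun i => (x i : ℚ)) e = ((eval x e : ℤ) : ℚ) := by
  induction e with
  | nil => simp
  | cons m e ih =>
    rw [eval_cons, eval_cons, ih]
    push_cast
    congr 1
    unfold mval
    split_ifs <;> push_cast <;> simp [Function.comp_def]

end

section

variable {I : Type} (code : I → ℕ)

/-- the expression of a signed monomial -/
def tmM (m : Bool × List I) : ER.Tm :=
  if m.1 then ER.Tm.neg (H612.prodT (m.2.map (fun i => ER.Tm.var (code i))))
  else H612.prodT (m.2.map (fun i => ER.Tm.var (code i)))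

/-- the expression of an equation -/
def tmE (e : List (Bool × List I)) : ER.Tm := H612.sumT (e.map (tmM code))

/-- the sum of the squares of the equations -/
def tmS (E : List (List (Bool × List I))) : ER.Tm :=
  H612.sumT (E.map (fun e => ER.Tm.mul (tmE code e) (tmE code e)))

theorem aeval_sumT (x : ℕ → ℚ) (l : List ER.Tm) : MvPolynomial.aeval x (toMv (H612.sumT l)) =
    (l.map (fun t => MvPolynomial.aeval x (toMv t))).sum := by
  induction l with
  | nil => simp [H612.sumT, toMv]
  | cons a l ih =>
    change MvPolynomial.aeval x (toMv a + toMv (H612.sumT l)) = _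
    rw [map_add, ih]
    simp

theorem aeval_prodT (x : ℕ → ℚ) (l : List ER.Tm) : MvPolynomial.aeval x (toMv (H612.prodT l)) =
    (l.map (fun t => MvPolynomial.aeval x (toMv t))).prod := by
  induction l with
  | nil => simp [H612.prodT, toMv]
  | cons a l ih =>
    change MvPolynomial.aeval x (toMv a * toMv (H612.prodT l)) = _
    rw [map_mul, ih]
    simp

theorem aeval_tmM (x : ℕ → ℚ) (m : Bool × List I) :
    MvPolynomial.aeval x (toMv (tmM code m)) = mval (fun i => x (code i)) m := by
  have h : MvPolynomial.aeval x (toMv (H612.prodT (m.2.map (fun i => ER.Tm.var (code i))))) =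
      (m.2.map (fun i => x (code i))).prod := by
    rw [aeval_prodT, List.map_map]
    congr 1
    apply List.map_congr_left
    intro i _
    simp [toMv]
  unfold tmM mval
  cases m.1
  · simp only [Bool.false_eq_true, if_false, one_mul]
    exact h
  · simp only [if_true]
    change MvPolynomial.aeval x (- toMv _) = _
    rw [map_neg, h]
    ring

theorem aeval_tmE (x : ℕ → ℚ) (e : List (Bool × List I)) :
    MvPolynomial.aeval x (toMv (tmE code e)) = eval (fun i => x (code i)) e := by
  unfold tmE eval
  rw [aeval_sumT, List.map_map]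
  congr 1
  apply List.map_congr_left
  intro m _
  exact aeval_tmM code x m

theorem aeval_tmS (x : ℕ → ℚ) (E : List (List (Bool × List I))) :
    MvPolynomial.aeval x (toMv (tmS code E)) = 0 ↔ ∀ e ∈ E, eval (fun i => x (code i)) e = 0 := by
  unfold tmS
  rw [aeval_sumT, List.map_map]
  have h : ((fun t => MvPolynomial.aeval x (toMv t)) ∘
      fun e => ER.Tm.mul (tmE code e) (tmE code e)) =
      fun e => eval (fun i => x (code i)) e * eval (fun i => x (code i)) e := by
    funext e
    change MvPolynomial.aeval x (toMv (tmE code e) * toMv (tmE code e)) = _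
    rw [map_mul, aeval_tmE]
  rw [h]
  have hnn : ∀ E : List (List (Bool × List I)),
      0 ≤ (E.map (fun e => eval (fun i => x (code i)) e * eval (fun i => x (code i)) e)).sum := by
    intro E
    apply List.sum_nonneg
    intro r hr
    obtain ⟨e, _, rfl⟩ := List.mem_map.1 hr
    exact mul_self_nonneg _
  induction E with
  | nil => simp
  | cons e E ih =>
    rw [List.map_cons, List.sum_cons]
    have h1 := mul_self_nonneg (eval (fun i => x (code i)) e)
    have h2 := hnn E
    constructor
    · intro h0
      have h3 : eval (fun i => x (code i)) e * eval (fun i => x (code i)) e = 0 := by linarith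
      have h4 := ih.1 (by linarith)
      intro e' he'
      rcases List.mem_cons.1 he' with rfl | he'
      · exact mul_self_eq_zero.1 h3
      · exact h4 e' he'
    · intro h0
      rw [h0 e (by simp), ih.2 (fun e' he' => h0 e' (by simp [he']))]
      ring

theorem tdeg_prodT (l : List I) :
    H573Q.tdeg (H612.prodT (l.map (fun i => ER.Tm.var (code i)))) ≤ l.length := by
  induction l with
  | nil => simp [H612.prodT, H573Q.tdeg]
  | cons a l ih =>
    change H573Q.tdeg (ER.Tm.mul (ER.Tm.var (code a))
      (H612.prodT (l.map (fun i => ER.Tm.var (code i))))) ≤ _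
    change 1 + _ ≤ l.length + 1
    omega

theorem tdeg_tmM (m : Bool × List I) : H573Q.tdeg (tmM code m) ≤ m.2.length := by
  unfold tmM
  split_ifs
  · exact tdeg_prodT code m.2
  · exact tdeg_prodT code m.2

theorem tdeg_sumT (l : List ER.Tm) (d : ℕ) (h : ∀ t ∈ l, H573Q.tdeg t ≤ d) :
    H573Q.tdeg (H612.sumT l) ≤ d := by
  induction l with
  | nil => simp [H612.sumT, H573Q.tdeg]
  | cons a l ih =>
    change max (H573Q.tdeg a) (H573Q.tdeg (H612.sumT l)) ≤ d
    exact max_le (h a (by simp)) (ih (fun t ht => h t (by simp [ht])))

theorem tdeg_tmS (E : List (List (Bool × List I))) (h : ∀ e ∈ E, ∀ m ∈ e, m.2.length ≤ 2) :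
    H573Q.tdeg (tmS code E) ≤ 4 := by
  unfold tmS
  apply tdeg_sumT
  intro t ht
  obtain ⟨e, he, rfl⟩ := List.mem_map.1 ht
  have : H573Q.tdeg (tmE code e) ≤ 2 := by
    unfold tmE
    apply tdeg_sumT
    intro t ht
    obtain ⟨m, hm, rfl⟩ := List.mem_map.1 ht
    exact (tdeg_tmM code m).trans (h e he m hm)
  change _ + _ ≤ 4
  omega

end

section

variable {α I : Type} [TEnc α] [TEnc I] {code : I → ℕ}

theorem poly_tmS (hc : NPC.Poly code) {E : α → List (List (Bool × List I))} (hE : NPC.Poly E) :
    NPC.Poly (fun a => tmS code (E a)) := by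
  have hM : NPC.Poly (fun m : Bool × List I => tmM code m) := by
    have h1 : NPC.Poly (fun m : Bool × List I =>
        H612.prodT (m.2.map (fun i => ER.Tm.var (code i)))) :=
      H612.poly_prodT (NPC.Poly.map (F := fun _ i => ER.Tm.var (code i))
        (NPC.Poly.snd NPC.Poly.id) (H612.poly_tvar (hc.comp (NPC.Poly.snd NPC.Poly.id))))
    exact NPC.Poly.ite (NPC.Poly.decide_bool (NPC.Poly.fst NPC.Poly.id)) (H612.poly_tneg h1) h1
  have hT : NPC.Poly (fun e : List (Bool × List I) => tmE code e) :=
    H612.poly_sumT (NPC.Poly.map (F := fun _ m => tmM code m) NPC.Poly.id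
      (hM.comp (NPC.Poly.snd NPC.Poly.id)))
  refine H612.poly_sumT (NPC.Poly.map (F := fun _ e => ER.Tm.mul (tmE code e) (tmE code e)) hE ?_)
  exact H612.poly_tmul (hT.comp (NPC.Poly.snd NPC.Poly.id)) (hT.comp (NPC.Poly.snd NPC.Poly.id))

end

end Pool.Agent.Helper89K9.NX
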