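import Pool.Agent.Helper89K9.NX.CLF

/-!
# Formulas for polynomial-time predicates with free input bits
-/

set_option autoImplicit false

namespace Pool.Agent.Helper89K9.NX

open Function (update)
open Turing
open Pool.Agent.NPC Pool.Agent.NPC.CL Pool.Agent.NPC.CL.Var

theorem key_tab {V : List Bool → List Bool} (hV : PolyTime V) (p : Polynomial ℕ) :
    ∃ (tm : FinTM2) (inE : tm.Γ tm.k₀ ≃ Bool) (outE : tm.Γ tm.k₁ ≃ Bool) (R : Polynomial ℕ),
      ∀ x w : List Bool, w.length ≤ p.eval x.length →
        (V (pairBits x w) = [true] ↔ Accepts (tab tm inE outE)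
          (run (tab tm inE outE) (p.eval x.length) (pairPre x) w (R.eval x.length))) := by
  obtain ⟨hV⟩ := hV
  refine ⟨hV.tm, hV.inputAlphabet, hV.outputAlphabet,
    (hV.time.comp (Polynomial.C 2 * Polynomial.X + Polynomial.C 1 + p)) *
      Polynomial.C (maxDepth hV.tm), fun x w hw => ?_⟩
  rw [pairBits_eq]
  refine tab_correct hV.tm hV.inputAlphabet hV.outputAlphabet V _ _ _ _ _ hw
    (hV.outputsFun (pairPre x ++ w)) ?_
  rw [Polynomial.eval_mul, Polynomial.eval_C, Polynomial.eval_comp]
  refine Nat.mul_le_mul_right _ (eval_mono _ ?_)
  simp only [id_eq, List.length_append, pairPre_length, Polynomial.eval_add,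
    Polynomial.eval_mul, Polynomial.eval_C, Polynomial.eval_X]
  omega

section

variable {Q K A : Type} (D : Tab Q K A)

/-- the variable which says that the `i`-th bit of the certificate is `b` -/
def ct (P i : ℕ) (b : Bool) : Var Q K A := ce 0 D.k₀ (P - 1 - i) (some (D.sym b))

/-- the certificate has length `P`, and no bit has two values -/
def ties (P : ℕ) : List (List (Bool × Var Q K A)) :=
  (List.range P).flatMap (fun i =>
    [forb [ce 0 D.k₀ (P - 1 - i) none], forb [ct D P i true, ct D P i false]])

theorem ties_holds (P : ℕ) (τ : Var Q K A → Bool) : Holds τ (ties D P) ↔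
    ∀ i < P, τ (ce 0 D.k₀ (P - 1 - i) none) = false ∧
      ¬ (τ (ct D P i true) = true ∧ τ (ct D P i false) = true) := by
  unfold ties Holds
  constructor
  · intro h i hi
    have h1 := h (forb [ce 0 D.k₀ (P - 1 - i) none]) (by
      rw [List.mem_flatMap]
      exact ⟨i, List.mem_range.2 hi, by simp⟩)
    have h2 := h (forb [ct D P i true, ct D P i false]) (by
      rw [List.mem_flatMap]
      exact ⟨i, List.mem_range.2 hi, by simp⟩)
    rw [holds_forb] at h1 h2
    refine ⟨?_, fun h3 => h2 ?_⟩
    · by_contra hne
      apply h1
      intro q hq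
      rw [List.mem_singleton] at hq
      subst hq
      simpa using hne
    · intro q hq
      simp only [List.mem_cons, List.not_mem_nil, or_false] at hq
      rcases hq with rfl | rfl
      · exact h3.1
      · exact h3.2
  · intro h cl hcl
    rw [List.mem_flatMap] at hcl
    obtain ⟨i, hi, hcl⟩ := hcl
    rw [List.mem_range] at hi
    obtain ⟨h1, h2⟩ := h i hi
    simp only [List.mem_cons, List.not_mem_nil, or_false] at hcl
    rcases hcl with rfl | rfl
    · rw [holds_forb]
      intro h3
      have := h3 _ (List.mem_singleton_self _)
      rw [h1] at this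
      exact absurd this (by simp)
    · rw [holds_forb]
      intro h3
      exact h2 ⟨h3 _ (by simp), h3 _ (by simp)⟩

theorem init_cell [DecidableEq K] (P : ℕ) (y w : List Bool) (hw : w.length ≤ P) (i : ℕ) (hi : i < P) :
    (init D P y w).m D.k₀ (P - 1 - i) =
      if h : i < w.length then some (D.sym w[i]) else none := by
  simp only [init, if_true]
  by_cases h : i < w.length
  · rw [dif_pos h, List.getElem?_append_right (by simp; omega)]
    simp only [List.length_replicate]
    rw [List.getElem?_reverse (by simp; omega)]
    simp only [List.length_map, List.length_append, List.map_append]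
    rw [List.getElem?_append_right (by simp; omega)]
    simp only [List.length_map]
    rw [show y.length + w.length - 1 - (P - 1 - i - (P - w.length)) - y.length = i by omega]
    rw [List.getElem?_map, List.getElem?_eq_getElem h]
    rfl
  · rw [dif_neg h, List.getElem?_append_left (by simp; omega), List.getElem?_replicate,
      if_pos (by omega)]
    rfl

end

theorem free_inputs {V : List Bool → List Bool} (hV : PolyTime V) (p : Polynomial ℕ) :
    ∃ (Vr : Type) (_ : TEnc Vr) (G : List Bool → List (List (Bool × Vr)))
      (c : List Bool → ℕ → Vr),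
      NPC.Poly G ∧ NPC.Poly (fun q : List Bool × ℕ => c q.1 q.2) ∧
      (∀ x, ∀ i < p.eval x.length, ∃ cl ∈ G x, ∃ b, (b, c x i) ∈ cl) ∧
      (∀ x τ, Holds τ (G x) →
        V (pairBits x ((List.range (p.eval x.length)).map (fun i => τ (c x i)))) = [true]) ∧
      (∀ x w, w.length = p.eval x.length → V (pairBits x w) = [true] →
        ∃ τ, Holds τ (G x) ∧ ∀ i < p.eval x.length, τ (c x i) = w.getD i false) := by
  obtain ⟨tm, inE, outE, R, key⟩ := key_tab hV p
  let _ := encFintype (NQ tm)
  let _ := encFintype tm.K
  let _ := encFintype (NA tm)
  have hsym : ∀ b, (tab tm inE outE).sym b = Sum.inl (inE.symm b) := fun _ => rfl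
  have hsi : ∀ a b, (tab tm inE outE).sym a = (tab tm inE outE).sym b → a = b := by
    intro a b h
    rw [hsym, hsym] at h
    exact inE.symm.injective (Sum.inl_injective h)
  have hP : UPoly (fun x : List Bool => p.eval x.length) :=
    UPoly.eval (UPoly.length NPC.Poly.id) p
  refine ⟨Var (NQ tm) tm.K (NA tm), inferInstance,
    fun x => formula (tab tm inE outE) (p.eval x.length) (pairPre x) (R.eval x.length) ++
      ties (tab tm inE outE) (p.eval x.length),
    fun x i => ct (tab tm inE outE) (p.eval x.length) i true, ?_, ?_, ?_, ?_, ?_⟩
  · refine NPC.Poly.append ?_ ?_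
    · exact pFormula _ hP (pPre NPC.Poly.id) (UPoly.eval (UPoly.length NPC.Poly.id) R)
    · refine NPC.Poly.flatMap (F := fun (x : List Bool) i =>
        [forb [ce 0 (tab tm inE outE).k₀ (p.eval x.length - 1 - i) none],
          forb [ct (tab tm inE outE) (p.eval x.length) i true,
            ct (tab tm inE outE) (p.eval x.length) i false]]) hP.range ?_
      have hj : NPC.Poly (fun q : List Bool × ℕ => p.eval q.1.length - 1 - q.2) :=
        NPC.Poly.sub (NPC.Poly.sub (hP.toPoly.comp (NPC.Poly.fst NPC.Poly.id)) (NPC.Poly.const 1))
          (NPC.Poly.snd NPC.Poly.id)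
      exact pList2 (pForb (pList1 (pCe (NPC.Poly.const 0) (NPC.Poly.const _) hj (NPC.Poly.const _))))
        (pForb (pList2 (pCe (NPC.Poly.const 0) (NPC.Poly.const _) hj (NPC.Poly.const _))
          (pCe (NPC.Poly.const 0) (NPC.Poly.const _) hj (NPC.Poly.const _))))
  · have hj : NPC.Poly (fun q : List Bool × ℕ => p.eval q.1.length - 1 - q.2) :=
      NPC.Poly.sub (NPC.Poly.sub (hP.toPoly.comp (NPC.Poly.fst NPC.Poly.id)) (NPC.Poly.const 1))
        (NPC.Poly.snd NPC.Poly.id)
    exact pCe (NPC.Poly.const 0) (NPC.Poly.const _) hj (NPC.Poly.const _)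
  · intro x i hi
    refine ⟨forb [ct (tab tm inE outE) (p.eval x.length) i true,
      ct (tab tm inE outE) (p.eval x.length) i false], ?_, false, by simp [forb]⟩
    refine List.mem_append_right _ ?_
    unfold ties
    rw [List.mem_flatMap]
    exact ⟨i, List.mem_range.2 hi, by simp⟩
  · intro x τ hτ
    rw [Holds.append_iff] at hτ
    obtain ⟨h1, h2⟩ := hτ
    obtain ⟨w, hw, hcell, hacc⟩ := formula_complete_cells (fun q => by simp [tab])
      (fun k => by simp [tab]) (fun o => by simp [tab]) h1
    rw [ties_holds] at h2
    have hlen : w.length = p.eval x.length := by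
      by_contra hne
      have hlt : w.length < p.eval x.length := by omega
      have h3 := hcell (p.eval x.length - 1 - w.length) (by omega)
      rw [init_cell _ _ _ _ hw _ hlt, dif_neg (lt_irrefl _), (h2 _ hlt).1] at h3
      exact absurd h3 (by simp)
    have hwe : (List.range (p.eval x.length)).map
        (fun i => τ (ct (tab tm inE outE) (p.eval x.length) i true)) = w := by
      apply List.ext_getElem
      · simp [hlen]
      · intro i hi1 hi2
        rw [List.getElem_map, List.getElem_range]
        have hi : i < p.eval x.length := by omega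
        have h3 := hcell (p.eval x.length - 1 - i) (by omega)
        rw [init_cell _ _ _ _ hw _ hi, dif_pos hi2] at h3
        cases hb : w[i] with
        | true => rw [hb] at h3; exact h3
        | false =>
          rw [hb] at h3
          have h4 := (h2 i hi).2
          by_contra hne
          exact h4 ⟨by simpa using hne, h3⟩
    rw [hwe]
    exact (key x w hw).2 hacc
  · intro x w hw hV
    have hacc := (key x w hw.le).1 hV
    refine ⟨asg (run (tab tm inE outE) (p.eval x.length) (pairPre x) w), ?_, ?_⟩
    · rw [Holds.append_iff]
      refine ⟨formula_sound _ _ _ w _ hw.le hacc, ?_⟩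
      rw [ties_holds]
      intro i hi
      have h0 : (run (tab tm inE outE) (p.eval x.length) (pairPre x) w 0).m
          (tab tm inE outE).k₀ (p.eval x.length - 1 - i) =
          some ((tab tm inE outE).sym (w[i]'(by omega))) := by
        have := init_cell (tab tm inE outE) _ (pairPre x) w hw.le i hi
        rw [dif_pos (by omega)] at this
        exact this
      constructor
      · by_contra hne
        have hne : asg (run (tab tm inE outE) (p.eval x.length) (pairPre x) w)
          (ce 0 (tab tm inE outE).k₀ (p.eval x.length - 1 - i) none) = true := by simpa using hne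
        rw [asg_ce, h0] at hne
        exact absurd hne (by simp)
      · rintro ⟨h3, h4⟩
        unfold ct at h3 h4
        rw [asg_ce, h0] at h3 h4
        have h5 := hsi _ _ (Option.some_injective _ h3)
        have h6 := hsi _ _ (Option.some_injective _ h4)
        rw [h5] at h6
        exact absurd h6 (by simp)
    · intro i hi
      have h0 : (run (tab tm inE outE) (p.eval x.length) (pairPre x) w 0).m
          (tab tm inE outE).k₀ (p.eval x.length - 1 - i) =
          some ((tab tm inE outE).sym (w[i]'(by omega))) := by
        have := init_cell (tab tm inE outE) _ (pairPre x) w hw.le i hi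
        rw [dif_pos (by omega)] at this
        exact this
      have hg : w.getD i false = w[i]'(by omega) := by
        rw [List.getD_eq_getElem?_getD, List.getElem?_eq_getElem (by omega)]
        rfl
      rw [hg]
      cases hb : w[i]'(by omega) with
      | true =>
        unfold ct
        rw [asg_ce, h0, hb]
      | false =>
        by_contra hne
        have hne : asg (run (tab tm inE outE) (p.eval x.length) (pairPre x) w)
          (ct (tab tm inE outE) (p.eval x.length) i true) = true := by simpa using hne
        unfold ct at hne
        rw [asg_ce, h0, hb] at hne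
        exact absurd (hsi _ _ (Option.some_injective _ hne)) (by simp)

end Pool.Agent.Helper89K9.NX
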