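import Pool.Agent.NPC.Dec

/-!
# From encoded lists of booleans to raw bit strings
-/

set_option autoImplicit false

namespace Pool.Agent.Helper89K9.NX

open Pool.Agent.NPC

/-- one step of the decoding -/
def rawStep : Cmd ℕ := Cmd.cases 0 Cmd.skip (Cmd.pop 0) (Cmd.seq (Cmd.pop 0)
  (Cmd.cases 0 Cmd.skip (Cmd.seq (Cmd.pop 0) (Cmd.push 1 false))
    (Cmd.seq (Cmd.pop 0) (Cmd.seq (Cmd.pop 0) (Cmd.seq (Cmd.pop 0) (Cmd.push 1 true))))))

theorem rawLoop_runs : ∀ (l acc : List Bool),
    Runs (Cmd.loop 0 rawStep) (st (bits l) acc []) (st [] (l.reverse ++ acc) [])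
      (8 * l.length + 4) := by
  intro l
  induction l with
  | nil =>
    intro acc
    have h0 : bits ([] : List Bool) = [false] := rfl
    rw [h0]
    refine (Runs.loopCons (m := 2) (n := 1) (s' := st [] acc []) (by simp) ?_
      (Runs.loopNil (by simp))).mono (by simp)
    exact (Runs.casesFalse (l := []) rfl (Runs.pop _ 0)).conv rfl (by simp) le_rfl
  | cons b l ih =>
    intro acc
    cases b with
    | false =>
      have h0 : bits (false :: l) = true :: false :: bits l := rfl
      rw [h0]
      refine (Runs.loopCons (m := 5) (n := 8 * l.length + 4) (s' := st (bits l) (false :: acc) [])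
        (by simp) ?_ (by simpa using ih (false :: acc))).conv rfl (by simp) (by simp; omega)
      refine (Runs.casesTrue (n := 4) (l := false :: bits l) rfl ((Runs.pop _ 0).seq
        (n := 3) (Runs.casesFalse (n := 2) (l := bits l) (by simp) ((Runs.pop _ 0).seq
          (Runs.push _ 1 false))))).conv rfl (by simp) le_rfl
    | true =>
      have h0 : bits (true :: l) = true :: true :: false :: false :: bits l := rfl
      rw [h0]
      refine (Runs.loopCons (m := 7) (n := 8 * l.length + 4) (s' := st (bits l) (true :: acc) [])
        (by simp) ?_ (by simpa using ih (true :: acc))).conv rfl (by simp) (by simp; omega)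
      refine (Runs.casesTrue (n := 6) (l := true :: false :: false :: bits l) rfl
        ((Runs.pop _ 0).seq (n := 5) (Runs.casesTrue (n := 4) (l := false :: false :: bits l)
          (by simp) ((Runs.pop _ 0).seq ((Runs.pop _ 0).seq ((Runs.pop _ 0).seq
            (Runs.push _ 1 true))))))).conv rfl (by simp) le_rfl

/-- From encoded lists of booleans to raw bit strings. -/
theorem rawOut : PC (bits : List Bool → List Bool) (fun x : List Bool => x) (fun x => x) := by
  refine ⟨Cmd.seq (Cmd.loop 0 rawStep) (mv 1 0), Polynomial.C 12 * Polynomial.X +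
    Polynomial.C 5, fun l => ?_⟩
  rw [inp_eq_st, inp_eq_st]
  refine ((rawLoop_runs l []).seq (mv_runs (by decide) (l.reverse ++ []) _ _ (by simp)
    rfl)).conv rfl (by simp) ?_
  have h := sz_listBool_ge l
  have h' : (bits l).length = sz l := rfl
  simp only [Polynomial.eval_add, Polynomial.eval_mul, Polynomial.eval_C, Polynomial.eval_X,
    List.length_append, List.length_reverse, List.length_nil]
  omega

/-- a function of raw bit strings which is polynomial-time computable is so as a function of
encoded strings -/
theorem poly_of_raw {β : Type} [TEnc β] {f : List Bool → β}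
    (hf : PC (fun x : List Bool => x) (bits : β → List Bool) f) : NPC.Poly f :=
  PC.comp (ea := (bits : List Bool → List Bool)) (eb := fun x : List Bool => x)
    (g := f) (f := fun x => x) hf rawOut

theorem poly_of_polyTime {f : List Bool → List Bool} (hf : PolyTime f) : NPC.Poly f := by
  refine poly_of_raw ?_
  exact PC.comp (eb := fun x : List Bool => x) (g := fun x => x) (f := f) PC.rawIn
    (H642R2.TMSim.polyTime_toPC hf)

end Pool.Agent.Helper89K9.NX
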