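import Pool.Agent.Helper89K9.NX.Slices
import Pool.Agent.Helper89K9.NX.Raw
import Pool.Agent.H532R2.IntPoly

/-!
# Relations in `NEXP`, with a parameter
-/

set_option autoImplicit false

namespace Pool.Agent.Helper89K9.NX

open Pool.Agent.NPC Pool.Agent.NPC.CL Pool.Agent.H528R2

theorem inNEXP_of {T : List Bool × List Bool → Bool} (hT : NPC.Poly T) (p : Polynomial ℕ) :
    InNEXP {x | ∃ w : List Bool, w.length ≤ 2 ^ (p.eval x.length) ∧ T (x, w) = true} := by
  refine ⟨fun u => [T (unpair u)], p,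
    polyTime_of_poly (g := fun u => T (unpair u)) (hT.comp poly_unpair), fun x => ?_⟩
  simp only [Set.mem_ofPred_eq, unpair_pairBits, List.cons.injEq, and_true]

theorem valB_replicate (k : ℕ) : valB (List.replicate k false) = 0 := by
  induction k with
  | zero => rfl
  | succ k ih => rw [List.replicate_succ, valB_cons, ih]; simp

theorem poly_two_pow {α : Type} [TEnc α] {n : α → ℕ} (hn : UPoly n) :
    NPC.Poly (fun a => 2 ^ n a) := by
  have h1 : NPC.Poly (fun a => List.replicate (n a) false) :=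
    (NPC.Poly.map (F := fun _ _ => false) hn (NPC.Poly.const false)).congr fun a => by
      simp
  refine (NPC.Poly.valBits (NPC.Poly.append h1 (NPC.Poly.const [true]))).congr fun a => ?_
  rw [valB_append, valB_replicate]
  simp [valB]

theorem poly_pairBits {α : Type} [TEnc α] {x w : α → List Bool} (hx : NPC.Poly x)
    (hw : NPC.Poly w) : NPC.Poly (fun a => pairBits (x a) (w a)) := by
  refine NPC.Poly.append ?_ (NPC.Poly.cons (NPC.Poly.const false) hw)
  exact NPC.Poly.flatMap (F := fun _ b => [true, b]) hx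
    (NPC.Poly.cons (NPC.Poly.const true) (NPC.Poly.cons (NPC.Poly.snd NPC.Poly.id)
      (NPC.Poly.const [])))

theorem bits_length_le (b : List Bool) : (valB b).bits.length ≤ b.length := by
  rw [Nat.size_eq_bits_len, Nat.size_le]
  exact valB_lt b

theorem exists_bits {a n : ℕ} (h : a < 2 ^ n) : ∃ b : List Bool, b.length = n ∧ valB b = a := by
  have h1 : a.bits.length ≤ n := by rw [Nat.size_eq_bits_len, Nat.size_le]; exact h
  refine ⟨a.bits ++ List.replicate (n - a.bits.length) false, by simp; omega, ?_⟩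
  rw [valB_append, valB_bits, valB_replicate]
  simp

/-- the values of the first unknown in the zeros of `t` with all coordinates in `R` -/
def Sol (t : ER.Tm) (R : Subring ℚ) (q : ℚ) : Prop :=
  ∃ y : ℕ → ℚ, (∀ i, y i ∈ R) ∧ y 0 = q ∧ MvPolynomial.aeval y (toMv t) = 0

/-- the main theorem -/
theorem slices_rel {L : Set (List Bool)} (hL : InNEXP L) :
    ∃ P : List Bool → ER.Tm, PolyTime (fun x => bits (P x)) ∧
      ∀ x, (toMv (P x)).totalDegree ≤ 4 ∧ ∀ (R : Subring ℚ) (q : ℚ), Sol (P x) R q ↔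
        ∃ a : ℕ, a < 2 ^ x.length ∧ pairBits x a.bits ∈ L ∧ q = a := by
  obtain ⟨f, hf, hfL⟩ := hardX_QSat L hL
  have hg : NPC.Poly (fun p : List Bool × List Bool => f (pairBits p.1 (valB p.2).bits)) :=
    (poly_of_raw hf).comp (poly_pairBits (NPC.Poly.fst NPC.Poly.id)
      (NPC.Poly.natBits (NPC.Poly.valBits (NPC.Poly.snd NPC.Poly.id))))
  obtain ⟨P, hP, hPdeg, h⟩ := slices (L := fun x b => pairBits x (valB b).bits ∈ L) hg
    (fun x b => hfL _)
  refine ⟨P, polyTime_bits hP, fun x => ⟨(totalDegree_toMv _).trans (hPdeg _), fun R q => ?_⟩⟩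
  constructor
  · rintro ⟨y, _, rfl, hy⟩
    obtain ⟨b, h1, h2, h3⟩ := (h x).2 y hy
    exact ⟨valB b, by rw [← h1]; exact valB_lt b, h2, h3⟩
  · rintro ⟨a, ha, haL, rfl⟩
    obtain ⟨b, hb, rfl⟩ := exists_bits ha
    obtain ⟨y, hy0, hy⟩ := (h x).1 b hb haL
    refine ⟨fun j => (y j : ℚ), fun j => intCast_mem R (y j), ?_, hy⟩
    change ((y 0 : ℤ) : ℚ) = _
    rw [hy0]
    simp

/-! ### preimages -/

theorem inNEXP_comap {L : Set (List Bool)} (hL : InNEXP L) {φ : List Bool → List Bool}
    (hφ : NPC.Poly φ) : InNEXP {u | φ u ∈ L} := by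
  obtain ⟨V, p, hV, h⟩ := hL
  obtain ⟨q, hq⟩ := hφ.sz_le
  let T : List Bool × List Bool → Bool := fun u =>
    decide (u.2.length ≤ 2 ^ (p.eval (φ u.1).length) ∧ V (pairBits (φ u.1) u.2) = [true])
  have hT : NPC.Poly T := by
    have hx : NPC.Poly (fun u : List Bool × List Bool => φ u.1) :=
      hφ.comp (NPC.Poly.fst NPC.Poly.id)
    have hw : NPC.Poly (fun u : List Bool × List Bool => u.2) := NPC.Poly.snd NPC.Poly.id
    refine NPC.Poly.decide_and ?_ ?_
    · exact NPC.Poly.decide_le (NPC.Poly.length hw)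
        (poly_two_pow (UPoly.eval (UPoly.length hx) p))
    · exact NPC.Poly.decide_eq ((poly_of_polyTime hV).comp (poly_pairBits hx hw))
        (NPC.Poly.const _)
  have h1 := inNEXP_of hT (p.comp (q.comp (Polynomial.C 4 * Polynomial.X + Polynomial.C 1)))
  convert! h1 using 1
  ext u
  simp only [Set.mem_ofPred_eq, T, decide_eq_true_eq]
  rw [h]
  constructor
  · rintro ⟨w, hw, hVw⟩
    refine ⟨w, hw.trans (Nat.pow_le_pow_right (by norm_num) ?_), hw, hVw⟩
    rw [Polynomial.eval_comp, Polynomial.eval_comp]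
    apply eval_mono
    have h2 := hq u
    have h3 := sz_listBool_ge (φ u)
    have h4 := eval_mono q (sz_listBool_le u)
    simp only [Polynomial.eval_add, Polynomial.eval_mul, Polynomial.eval_C, Polynomial.eval_X]
    omega
  · rintro ⟨w, _, hw, hVw⟩
    exact ⟨w, hw, hVw⟩

end Pool.Agent.Helper89K9.NX
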