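import Pool.Agent.Helper89K9.NX.Sys

/-!
# The equations are computed in polynomial time
-/

set_option autoImplicit false

namespace Pool.Agent.Helper89K9.NX

open Pool.Agent.NPC Pool.Agent.NPC.CL Pool.Agent.H528R2

section

variable {α Vr : Type} [TEnc α] [TEnc Vr]

theorem poly_bv {f : α → Vr} (hf : NPC.Poly f) : NPC.Poly (fun a => (bv (f a) : Ix Vr)) :=
  NPC.Poly.inr (NPC.Poly.inl hf)

theorem poly_au (k : ℕ) {f : α → ℕ} (hf : NPC.Poly f) :
    NPC.Poly (fun a => (au k (f a) : Ix Vr)) :=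
  NPC.Poly.inr (NPC.Poly.inr (NPC.Poly.pair (NPC.Poly.const k) hf))

theorem poly_m0 (b : Bool) : NPC.Poly (fun _ : α => ((b, []) : Bool × List (Ix Vr))) :=
  NPC.Poly.const _

theorem poly_m1 (b : Bool) {f : α → Ix Vr} (hf : NPC.Poly f) :
    NPC.Poly (fun a => ((b, [f a]) : Bool × List (Ix Vr))) :=
  NPC.Poly.pair (NPC.Poly.const b) (pList1 hf)

theorem poly_m2 (b : Bool) {f g : α → Ix Vr} (hf : NPC.Poly f) (hg : NPC.Poly g) :
    NPC.Poly (fun a => ((b, [f a, g a]) : Bool × List (Ix Vr))) :=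
  NPC.Poly.pair (NPC.Poly.const b) (pList2 hf hg)

theorem pList4 {V : Type} [TEnc V] {a b c d : α → V} (ha : NPC.Poly a) (hb : NPC.Poly b)
    (hc : NPC.Poly c) (hd : NPC.Poly d) : NPC.Poly (fun x => [a x, b x, c x, d x]) :=
  NPC.Poly.cons ha (pList3 hb hc hd)

theorem poly_sq4 (k : ℕ) {f : α → ℕ} (hf : NPC.Poly f) :
    NPC.Poly (fun a => (sq4 k (f a) : Eqn Vr)) := by
  have h : ∀ j : ℕ, NPC.Poly (fun a => (au k (f a + j) : Ix Vr)) := fun j =>
    poly_au k (NPC.Poly.add hf (NPC.Poly.const j))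
  exact pList4 (poly_m2 true (h 0) (h 0)) (poly_m2 true (h 1) (h 1)) (poly_m2 true (h 2) (h 2))
    (poly_m2 true (h 3) (h 3))

theorem poly_boolEqs {G : α → List (List (Bool × Vr))} (hG : NPC.Poly G) :
    NPC.Poly (fun a => boolEqs (G a)) := by
  refine NPC.Poly.flatMap (F := fun _ (cl : List (Bool × Vr)) => cl.map (fun l : Bool × Vr =>
    ([(false, [bv l.2, bv l.2]), (true, [bv l.2])] : Eqn Vr))) hG ?_
  refine NPC.Poly.map (F := fun _ (l : Bool × Vr) =>
    ([(false, [bv l.2, bv l.2]), (true, [bv l.2])] : Eqn Vr)) (NPC.Poly.snd NPC.Poly.id) ?_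
  have h : NPC.Poly (fun p : (α × List (Bool × Vr)) × (Bool × Vr) => (bv p.2.2 : Ix Vr)) :=
    poly_bv (NPC.Poly.snd (NPC.Poly.snd NPC.Poly.id))
  exact pList2 (poly_m2 false h h) (poly_m1 true h)

theorem poly_litM : NPC.Poly (fun l : Bool × Vr => litM l) := by
  have h : NPC.Poly (fun l : Bool × Vr => (bv l.2 : Ix Vr)) := poly_bv (NPC.Poly.snd NPC.Poly.id)
  exact NPC.Poly.ite (NPC.Poly.decide_bool (NPC.Poly.fst NPC.Poly.id))
    (pList1 (poly_m1 false h)) (pList2 (poly_m0 false) (poly_m1 true h))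

theorem poly_clEqs {G : α → List (List (Bool × Vr))} (hG : NPC.Poly G) :
    NPC.Poly (fun a => clEqs (G a)) := by
  refine NPC.Poly.map (F := fun _ (p : List (Bool × Vr) × ℕ) =>
    (p.1.flatMap litM ++ ((true, []) :: sq4 1 (4 * p.2)) : Eqn Vr)) (NPC.Poly.zipIdx hG) ?_
  have h1 : NPC.Poly (fun p : α × (List (Bool × Vr) × ℕ) => p.2.1.flatMap litM) :=
    NPC.Poly.flatMap (F := fun _ l => litM l) (NPC.Poly.fst (NPC.Poly.snd NPC.Poly.id))
      (poly_litM.comp (NPC.Poly.snd NPC.Poly.id))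
  have h2 : NPC.Poly (fun p : α × (List (Bool × Vr) × ℕ) => 4 * p.2.2) :=
    NPC.Poly.mul (NPC.Poly.const 4) (NPC.Poly.snd (NPC.Poly.snd NPC.Poly.id))
  exact NPC.Poly.append h1 (NPC.Poly.cons (poly_m0 true) (poly_sq4 1 h2))

theorem poly_hornEqs {c : α → ℕ → Vr} {n : α → ℕ} (hn : UPoly n)
    (hc : NPC.Poly (fun p : α × ℕ => c p.1 p.2)) :
    NPC.Poly (fun a => hornEqs (c a) (n a)) := by
  refine NPC.Poly.cons (NPC.Poly.const _) (NPC.Poly.cons
    (pList1 (poly_m1 false (poly_au 0 hn.toPoly))) ?_)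
  refine NPC.Poly.map (F := fun a i => ([(false, [au 0 i]), (true, [bv (c a i)]),
    (true, [au 0 (i + 1)]), (true, [au 0 (i + 1)])] : Eqn Vr)) hn.range ?_
  have h0 : NPC.Poly (fun p : α × ℕ => (au 0 p.2 : Ix Vr)) := poly_au 0 (NPC.Poly.snd NPC.Poly.id)
  have h1 : NPC.Poly (fun p : α × ℕ => (au 0 (p.2 + 1) : Ix Vr)) :=
    poly_au 0 (NPC.Poly.add (NPC.Poly.snd NPC.Poly.id) (NPC.Poly.const 1))
  exact pList4 (poly_m1 false h0) (poly_m1 true (poly_bv hc)) (poly_m1 true h1) (poly_m1 true h1)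

theorem poly_conM {c : α → ER.Con} (hc : NPC.Poly c) :
    NPC.Poly (fun a => (conM (c a) : Eqn Vr)) := by
  have h := ER.poly_con_code hc
  have h0 := NPC.Poly.fst h
  have h1 := NPC.Poly.fst (NPC.Poly.snd h)
  have h2 := NPC.Poly.fst (NPC.Poly.snd (NPC.Poly.snd h))
  have h3 := NPC.Poly.snd (NPC.Poly.snd (NPC.Poly.snd h))
  have d : NPC.Poly (fun _ : α => (au 4 0 : Ix Vr)) := NPC.Poly.const _
  refine (NPC.Poly.ite (NPC.Poly.decide_eq h0 (NPC.Poly.const 0))
    (pList2 (poly_m1 false (poly_au 2 h1)) (poly_m1 true d))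
    (NPC.Poly.ite (NPC.Poly.decide_eq h0 (NPC.Poly.const 1))
      (pList3 (poly_m1 false (poly_au 2 h1)) (poly_m1 false (poly_au 2 h2))
        (poly_m1 true (poly_au 2 h3)))
      (pList2 (poly_m2 false (poly_au 2 h1) (poly_au 2 h2))
        (poly_m2 true (poly_au 2 h3) d)))).congr fun a => ?_
  cases c a <;> rfl

theorem poly_candEqs {c : α → ℕ → Vr} {n : α → ℕ} {C : α → List ER.Con} (hn : UPoly n)
    (hc : NPC.Poly (fun p : α × ℕ => c p.1 p.2)) (hC : NPC.Poly C) :
    NPC.Poly (fun a => candEqs (c a) (n a) (C a)) := by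
  refine NPC.Poly.flatMap (F := fun a (p : ER.Con × ℕ) =>
    ([(true, [au 3 p.2]) :: conM p.1, [(false, [bv (c a (n a + p.2)), au 3 p.2])]] :
      List (Eqn Vr))) (NPC.Poly.zipIdx hC) ?_
  have h2 : NPC.Poly (fun p : α × (ER.Con × ℕ) => p.2.2) :=
    NPC.Poly.snd (NPC.Poly.snd NPC.Poly.id)
  have h3 : NPC.Poly (fun p : α × (ER.Con × ℕ) => (au 3 p.2.2 : Ix Vr)) := poly_au 3 h2
  have h4 : NPC.Poly (fun p : α × (ER.Con × ℕ) => (bv (c p.1 (n p.1 + p.2.2)) : Ix Vr)) :=
    poly_bv (hc.comp (NPC.Poly.pair (NPC.Poly.fst NPC.Poly.id)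
      (NPC.Poly.add (hn.toPoly.comp (NPC.Poly.fst NPC.Poly.id)) h2)))
  exact pList2 (NPC.Poly.cons (poly_m1 true h3)
    (poly_conM (NPC.Poly.fst (NPC.Poly.snd NPC.Poly.id)))) (pList1 (poly_m2 false h4 h3))

theorem poly_eqs {G : α → List (List (Bool × Vr))} {c : α → ℕ → Vr} {n : α → ℕ}
    {C : α → List ER.Con} (hG : NPC.Poly G) (hn : UPoly n)
    (hc : NPC.Poly (fun p : α × ℕ => c p.1 p.2)) (hC : NPC.Poly C) :
    NPC.Poly (fun a => eqs (G a) (c a) (n a) (C a)) :=
  NPC.Poly.append (poly_boolEqs hG) (NPC.Poly.append (poly_clEqs hG)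
    (NPC.Poly.append (poly_hornEqs hn hc) (NPC.Poly.append (poly_candEqs hn hc hC)
      (NPC.Poly.const _))))

/-- the number of an unknown: the free one is number `0` -/
def code : Ix Vr → ℕ := fun i => Sum.elim (fun _ => 0) (fun j => valB (bits j ++ [true])) i

theorem valB_snoc_inj {l l' : List Bool} (h : valB (l ++ [true]) = valB (l' ++ [true])) :
    l = l' := by
  have key : ∀ l : List Bool, (valB (l ++ [true])).bits = l ++ [true] := by
    intro l
    induction l with
    | nil => simp [valB]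
    | cons b l ih =>
      rw [List.cons_append, valB_cons]
      have hpos : valB (l ++ [true]) ≠ 0 := by
        rw [valB_append]
        have : valB [true] = 1 := by simp [valB]
        rw [this]
        have := Nat.two_pow_pos l.length
        omega
      cases b
      · simp only [Bool.false_eq_true, if_false, zero_add]
        rw [Nat.bit0_bits _ hpos, ih]
      · simp only [if_true]
        rw [show 1 + 2 * valB (l ++ [true]) = 2 * valB (l ++ [true]) + 1 by ring,
          Nat.bit1_bits, ih]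
  have h1 := key l
  rw [h, key l'] at h1
  exact (List.append_cancel_right h1).symm

theorem code_inj : Function.Injective (code : Ix Vr → ℕ) := by
  intro a b h
  have hpos : ∀ l : List Bool, valB (l ++ [true]) ≠ 0 := by
    intro l
    rw [valB_append]
    have : valB [true] = 1 := by simp [valB]
    rw [this]
    have := Nat.two_pow_pos l.length
    omega
  rcases a with ⟨⟩ | a <;> rcases b with ⟨⟩ | b
  · rfl
  · exact absurd h.symm (hpos _)
  · exact absurd h (hpos _)
  · have h1 := valB_snoc_inj (show valB (bits a ++ [true]) = valB (bits b ++ [true]) from h)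
    rw [bits_injective h1]

@[simp] theorem code_x0 : code (x0 : Ix Vr) = 0 := rfl

theorem poly_bits {β : Type} [TEnc β] {f : α → β} (hf : NPC.Poly f) :
    NPC.Poly (fun a => (bits (f a) : List Bool)) := by
  have h1 : PC (bits : α → List Bool) (fun x : List Bool => x) (fun a => bits (f a)) := hf
  exact PC.comp (ea := (bits : α → List Bool)) (eb := fun x : List Bool => x)
    (ec := (bits : List Bool → List Bool)) (g := fun x => x) (f := fun a => bits (f a))
    PC.rawIn h1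

theorem poly_code : NPC.Poly (code : Ix Vr → ℕ) := by
  refine (NPC.Poly.sumCases (o := fun i : Ix Vr => i) (g := fun _ _ => 0)
    (h := fun _ j => valB (bits j ++ [true])) NPC.Poly.id (NPC.Poly.const 0)
    (NPC.Poly.valBits (NPC.Poly.append (poly_bits (NPC.Poly.snd NPC.Poly.id))
      (NPC.Poly.const _)))).congr fun i => ?_
  cases i <;> rfl

end

end Pool.Agent.Helper89K9.NX
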