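import Pool.Agent.H528R2.Final
import Pool.Agent.H612.CollectPoly

/-!
# Renaming of variables, and the list of all candidate constraints
-/

set_option autoImplicit false

namespace Pool.Agent.Helper89K9.NX

open Pool.Agent.NPC Pool.Agent.H528R2

/-- renaming of the variables of a constraint -/
def renCon (ρ : ℕ → ℕ) : ER.Con → ER.Con
  | .one i => .one (ρ i)
  | .add i j k => .add (ρ i) (ρ j) (ρ k)
  | .mul i j k => .mul (ρ i) (ρ j) (ρ k)

theorem holdsQ_ren (v : ℕ → ℚ) (ρ : ℕ → ℕ) (c : ER.Con) :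
    HoldsQ v (renCon ρ c) ↔ HoldsQ (fun i => v (ρ i)) c := by
  cases c <;> rfl

theorem holdsQ_congr {v v' : ℕ → ℚ} {c : ER.Con} (h : ∀ i ∈ c.vars, v i = v' i) :
    HoldsQ v c ↔ HoldsQ v' c := by
  cases c <;> simp [ER.Con.vars] at h <;> simp [HoldsQ, h]

/-- the list of the occurrences of variables -/
def occ (S : List ER.Con) : List ℕ := S.flatMap ER.Con.vars

/-- the system with the variables numbered by their first occurrences -/
def ren (S : List ER.Con) : List ER.Con := S.map (renCon (fun i => (occ S).idxOf i))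

theorem qsat_ren (S : List ER.Con) : QSat (ren S) ↔ QSat S := by
  constructor
  · rintro ⟨v, hv⟩
    refine ⟨fun i => v ((occ S).idxOf i), fun c hc => ?_⟩
    rw [← holdsQ_ren]
    exact hv _ (List.mem_map.2 ⟨c, hc, rfl⟩)
  · rintro ⟨v, hv⟩
    refine ⟨fun j => v ((occ S).getD j 0), fun c hc => ?_⟩
    obtain ⟨d, hd, rfl⟩ := List.mem_map.1 hc
    rw [holdsQ_ren, holdsQ_congr (v' := v)]
    · exact hv d hd
    · intro i hi
      have hmem : i ∈ occ S := List.mem_flatMap.2 ⟨d, hd, hi⟩
      have hlt := List.idxOf_lt_length_iff.2 hmem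
      rw [List.getD_eq_getElem?_getD, List.getElem?_eq_getElem hlt]
      simp

theorem ren_lt (S : List ER.Con) : ∀ c ∈ ren S, ∀ i ∈ c.vars, i < (occ S).length := by
  intro c hc i hi
  obtain ⟨d, hd, rfl⟩ := List.mem_map.1 hc
  have key : ∀ j ∈ d.vars, (occ S).idxOf j < (occ S).length := fun j hj =>
    List.idxOf_lt_length_iff.2 (List.mem_flatMap.2 ⟨d, hd, hj⟩)
  cases d <;> simp only [renCon, ER.Con.vars, List.mem_cons, List.not_mem_nil, or_false] at hi key
  · rw [hi]; exact key _ rfl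
  · rcases hi with rfl | rfl | rfl
    · exact key _ (Or.inl rfl)
    · exact key _ (Or.inr (Or.inl rfl))
    · exact key _ (Or.inr (Or.inr rfl))
  · rcases hi with rfl | rfl | rfl
    · exact key _ (Or.inl rfl)
    · exact key _ (Or.inr (Or.inl rfl))
    · exact key _ (Or.inr (Or.inr rfl))

theorem occ_length (S : List ER.Con) : (occ S).length ≤ 3 * S.length := by
  induction S with
  | nil => simp [occ]
  | cons c S ih =>
    have h : (occ (c :: S)).length = c.vars.length + (occ S).length := by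
      simp [occ]
    rw [h, List.length_cons]
    have : c.vars.length ≤ 3 := by cases c <;> simp [ER.Con.vars]
    omega

/-- all the constraints on the variables below `B` -/
def cands (B : ℕ) : List ER.Con :=
  (List.range B).map ER.Con.one ++ (List.range B).flatMap (fun i =>
    (List.range B).flatMap (fun j => (List.range B).flatMap (fun k =>
      [ER.Con.add i j k, ER.Con.mul i j k])))

theorem flatMap_range_length {β : Type} (f : ℕ → List β) (B m : ℕ) (h : ∀ i, (f i).length = m) :
    ((List.range B).flatMap f).length = B * m := by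
  rw [List.length_flatMap]
  simp [h]

theorem cands_length (B : ℕ) : (cands B).length = B + B * (B * (B * 2)) := by
  unfold cands
  rw [List.length_append, List.length_map, List.length_range]
  congr 1
  exact flatMap_range_length _ _ _ fun i => flatMap_range_length _ _ _ fun j =>
    flatMap_range_length _ _ _ fun k => rfl

theorem mem_cands {B : ℕ} {c : ER.Con} (h : ∀ i ∈ c.vars, i < B) : c ∈ cands B := by
  unfold cands
  cases c with
  | one i =>
    refine List.mem_append_left _ (List.mem_map.2 ⟨i, List.mem_range.2 (h i ?_), rfl⟩)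
    simp [ER.Con.vars]
  | add i j k =>
    refine List.mem_append_right _ (List.mem_flatMap.2 ⟨i, List.mem_range.2 (h i ?_),
      List.mem_flatMap.2 ⟨j, List.mem_range.2 (h j ?_),
        List.mem_flatMap.2 ⟨k, List.mem_range.2 (h k ?_), ?_⟩⟩⟩) <;> simp [ER.Con.vars]
  | mul i j k =>
    refine List.mem_append_right _ (List.mem_flatMap.2 ⟨i, List.mem_range.2 (h i ?_),
      List.mem_flatMap.2 ⟨j, List.mem_range.2 (h j ?_),
        List.mem_flatMap.2 ⟨k, List.mem_range.2 (h k ?_), ?_⟩⟩⟩) <;> simp [ER.Con.vars]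

theorem of_mem_cands {B : ℕ} {c : ER.Con} (h : c ∈ cands B) : ∀ i ∈ c.vars, i < B := by
  unfold cands at h
  rcases List.mem_append.1 h with h | h
  · obtain ⟨i, hi, rfl⟩ := List.mem_map.1 h
    intro a ha
    simp only [ER.Con.vars, List.mem_singleton] at ha
    rw [ha]
    exact List.mem_range.1 hi
  · obtain ⟨i, hi, h⟩ := List.mem_flatMap.1 h
    obtain ⟨j, hj, h⟩ := List.mem_flatMap.1 h
    obtain ⟨k, hk, h⟩ := List.mem_flatMap.1 h
    rw [List.mem_range] at hi hj hk
    simp only [List.mem_cons, List.not_mem_nil, or_false] at h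
    rcases h with rfl | rfl
    · intro a ha
      simp only [ER.Con.vars, List.mem_cons, List.not_mem_nil, or_false] at ha
      omega
    · intro a ha
      simp only [ER.Con.vars, List.mem_cons, List.not_mem_nil, or_false] at ha
      omega

section

variable {α : Type} [TEnc α]

theorem poly_vars {c : α → ER.Con} (hc : NPC.Poly c) : NPC.Poly (fun a => (c a).vars) := by
  have h := ER.poly_con_code hc
  have h0 := NPC.Poly.fst h
  have h1 := NPC.Poly.fst (NPC.Poly.snd h)
  have h2 := NPC.Poly.fst (NPC.Poly.snd (NPC.Poly.snd h))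
  have h3 := NPC.Poly.snd (NPC.Poly.snd (NPC.Poly.snd h))
  refine (NPC.Poly.ite (NPC.Poly.decide_eq h0 (NPC.Poly.const 0)) (CL.pList1 h1)
    (CL.pList3 h1 h2 h3)).congr fun a => ?_
  cases c a <;> rfl

theorem poly_renCon {c : α → ER.Con} {ρ : α → ℕ → ℕ} (hc : NPC.Poly c)
    (hρ : NPC.Poly (fun p : α × ℕ => ρ p.1 p.2)) :
    NPC.Poly (fun a => renCon (ρ a) (c a)) := by
  have h := ER.poly_con_code hc
  have h0 := NPC.Poly.fst h
  have h1 := NPC.Poly.fst (NPC.Poly.snd h)
  have h2 := NPC.Poly.fst (NPC.Poly.snd (NPC.Poly.snd h))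
  have h3 := NPC.Poly.snd (NPC.Poly.snd (NPC.Poly.snd h))
  have e : ∀ {f : α → ℕ}, NPC.Poly f → NPC.Poly (fun a => ρ a (f a)) := fun hf =>
    hρ.comp (NPC.Poly.pair NPC.Poly.id hf)
  refine (NPC.Poly.ite (NPC.Poly.decide_eq h0 (NPC.Poly.const 0)) (ER.poly_con_one (e h1))
    (NPC.Poly.ite (NPC.Poly.decide_eq h0 (NPC.Poly.const 1)) (ER.poly_con_add (e h1) (e h2) (e h3))
      (ER.poly_con_mul (e h1) (e h2) (e h3)))).congr fun a => ?_
  cases c a <;> rfl

theorem poly_occ {S : α → List ER.Con} (hS : NPC.Poly S) : NPC.Poly (fun a => occ (S a)) :=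
  NPC.Poly.flatMap (F := fun _ c => ER.Con.vars c) hS (poly_vars (NPC.Poly.snd NPC.Poly.id))

theorem poly_ren {S : α → List ER.Con} (hS : NPC.Poly S) : NPC.Poly (fun a => ren (S a)) := by
  refine NPC.Poly.map (F := fun a c => renCon (fun i => (occ (S a)).idxOf i) c) hS ?_
  refine poly_renCon (NPC.Poly.snd NPC.Poly.id) ?_
  exact H612.poly_idxOf ((poly_occ hS).comp (NPC.Poly.fst (NPC.Poly.fst NPC.Poly.id)))
    (NPC.Poly.snd NPC.Poly.id)

theorem poly_cands {B : α → ℕ} (hB : UPoly B) : NPC.Poly (fun a => cands (B a)) := by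
  refine NPC.Poly.append ?_ ?_
  · exact NPC.Poly.map (F := fun _ i => ER.Con.one i) hB.range
      (ER.poly_con_one (NPC.Poly.snd NPC.Poly.id))
  · refine NPC.Poly.flatMap (F := fun a i => (List.range (B a)).flatMap (fun j =>
      (List.range (B a)).flatMap (fun k => [ER.Con.add i j k, ER.Con.mul i j k]))) hB.range ?_
    refine NPC.Poly.flatMap (F := fun (p : α × ℕ) j =>
      (List.range (B p.1)).flatMap (fun k => [ER.Con.add p.2 j k, ER.Con.mul p.2 j k]))
      (hB.range.comp (NPC.Poly.fst NPC.Poly.id)) ?_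
    refine NPC.Poly.flatMap (F := fun (p : (α × ℕ) × ℕ) k =>
      [ER.Con.add p.1.2 p.2 k, ER.Con.mul p.1.2 p.2 k])
      (hB.range.comp (NPC.Poly.fst (NPC.Poly.fst NPC.Poly.id))) ?_
    have f1 : NPC.Poly (fun x : ((α × ℕ) × ℕ) × ℕ => x.1.1.2) :=
      NPC.Poly.snd (NPC.Poly.fst (NPC.Poly.fst NPC.Poly.id))
    have f2 : NPC.Poly (fun x : ((α × ℕ) × ℕ) × ℕ => x.1.2) :=
      NPC.Poly.snd (NPC.Poly.fst NPC.Poly.id)
    have f3 : NPC.Poly (fun x : ((α × ℕ) × ℕ) × ℕ => x.2) := NPC.Poly.snd NPC.Poly.id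
    exact CL.pList2 (ER.poly_con_add f1 f2 f3) (ER.poly_con_mul f1 f2 f3)

end

end Pool.Agent.Helper89K9.NX
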