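import Pool.Agent.Helper89K9.NX.Comp
import Pool.Agent.Helper89K9.NX.PolyS

/-!
# Polynomials with free input bits for problems which reduce to systems over `ℚ`
-/

set_option autoImplicit false

namespace Pool.Agent.Helper89K9.NX

open Pool.Agent.NPC Pool.Agent.NPC.CL Pool.Agent.H528R2

/-- the first `n` bits -/
def pref (n : ℕ) (w : List Bool) : List Bool := (List.range n).map (fun i => w.getD i false)

/-- the bits which say which candidates belong to the system -/
def sel (B : ℕ) (S : List ER.Con) : List Bool := (cands B).map (fun c => decide (c ∈ S))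

/-- the test made by the formula -/
def tst (Bp : Polynomial ℕ) (g : List Bool × List Bool → List ER.Con)
    (p : List Bool × List Bool) : Bool :=
  decide (p.2 = pref p.1.length p.2 ++
    sel (Bp.eval p.1.length) (ren (g (p.1, pref p.1.length p.2))))

theorem pref_append {n : ℕ} {b s : List Bool} (hb : b.length = n) : pref n (b ++ s) = b := by
  unfold pref
  apply List.ext_getElem
  · simp [hb]
  · intro i h1 h2
    rw [List.getElem_map, List.getElem_range, List.getD_eq_getElem?_getD,
      List.getElem?_append_left h2, List.getElem?_eq_getElem h2]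
    rfl

theorem pref_length (n : ℕ) (w : List Bool) : (pref n w).length = n := by simp [pref]

theorem sel_length (B : ℕ) (S : List ER.Con) : (sel B S).length = (cands B).length := by
  simp [sel]

theorem poly_pref {α : Type} [TEnc α] {n : α → ℕ} {w : α → List Bool} (hn : UPoly n)
    (hw : NPC.Poly w) : NPC.Poly (fun a => pref (n a) (w a)) := by
  refine NPC.Poly.map (F := fun a i => (w a).getD i false) hn.range ?_
  exact NPC.Poly.getD (hw.comp (NPC.Poly.fst NPC.Poly.id)) (NPC.Poly.snd NPC.Poly.id)
    (NPC.Poly.const false)

theorem poly_sel {α : Type} [TEnc α] {B : α → ℕ} {S : α → List ER.Con} (hB : UPoly B)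
    (hS : NPC.Poly S) : NPC.Poly (fun a => sel (B a) (S a)) := by
  refine NPC.Poly.map (F := fun a c => decide (c ∈ S a)) (poly_cands hB) ?_
  exact NPC.Poly.decide_mem (NPC.Poly.snd NPC.Poly.id) (hS.comp (NPC.Poly.fst NPC.Poly.id))

theorem poly_tst (Bp : Polynomial ℕ) {g : List Bool × List Bool → List ER.Con}
    (hg : NPC.Poly g) : NPC.Poly (tst Bp g) := by
  have h1 : UPoly (fun p : List Bool × List Bool => p.1.length) :=
    UPoly.length (NPC.Poly.fst NPC.Poly.id)
  have h2 : NPC.Poly (fun p : List Bool × List Bool => p.2) := NPC.Poly.snd NPC.Poly.id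
  have h3 := poly_pref h1 h2
  exact NPC.Poly.decide_eq h2 (NPC.Poly.append h3
    (poly_sel (UPoly.eval h1 Bp) (poly_ren (hg.comp (NPC.Poly.pair
      (NPC.Poly.fst NPC.Poly.id) h3)))))

theorem bound_poly {g : List Bool × List Bool → List ER.Con} (hg : NPC.Poly g) :
    ∃ Bp : Polynomial ℕ, ∀ x b : List Bool, b.length = x.length →
      (occ (g (x, b))).length ≤ Bp.eval x.length := by
  obtain ⟨p, hp⟩ := hg.sz_le
  refine ⟨Polynomial.C 3 * p.comp (Polynomial.C 8 * Polynomial.X + Polynomial.C 3),
    fun x b hb => ?_⟩
  have h1 := occ_length (g (x, b))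
  have h2 := length_lt_sz (g (x, b))
  have h3 := hp (x, b)
  have h5 := sz_listBool_le b
  have h6 := sz_listBool_le x
  have h4 := eval_mono p (m := sz (x, b)) (n := 8 * x.length + 3) (by rw [sz_pair]; omega)
  rw [Polynomial.eval_mul, Polynomial.eval_C, Polynomial.eval_comp]
  simp only [Polynomial.eval_add, Polynomial.eval_mul, Polynomial.eval_C, Polynomial.eval_X]
  omega

theorem aeval_int {I : Type} (code : I → ℕ) (hc : Function.Injective code) (x : I → ℤ)
    (E : List (List (Bool × List I))) (h : ∀ e ∈ E, eval x e = 0) :
    ∃ y : ℕ → ℤ, (∀ i, y (code i) = x i) ∧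
      MvPolynomial.aeval (fun j => (y j : ℚ)) (toMv (tmS code E)) = 0 := by
  refine ⟨Function.extend code x 0, fun i => hc.extend_apply _ _ _, ?_⟩
  rw [aeval_tmS]
  intro e he
  have h1 : (fun i => ((Function.extend code x 0 (code i) : ℤ) : ℚ)) = fun i => (x i : ℚ) := by
    funext i
    rw [hc.extend_apply]
  rw [h1, eval_intCast, h e he]
  simp

theorem slices {L : List Bool → List Bool → Prop} {g : List Bool × List Bool → List ER.Con}
    (hg : NPC.Poly g) (hL : ∀ x b, L x b ↔ QSat (g (x, b))) :
    ∃ P : List Bool → ER.Tm, NPC.Poly P ∧ (∀ x, H573Q.tdeg (P x) ≤ 4) ∧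
      ∀ x, (∀ b, b.length = x.length → L x b → ∃ y : ℕ → ℤ, y 0 = (valB b : ℤ) ∧
          MvPolynomial.aeval (fun j => (y j : ℚ)) (toMv (P x)) = 0) ∧
        (∀ y : ℕ → ℚ, MvPolynomial.aeval y (toMv (P x)) = 0 →
          ∃ b, b.length = x.length ∧ L x b ∧ y 0 = (valB b : ℚ)) := by
  obtain ⟨Bp, hBp⟩ := bound_poly hg
  set Pp : Polynomial ℕ := Polynomial.X + (Bp + Bp * (Bp * (Bp * Polynomial.C 2))) with hPp
  have hPe : ∀ n, Pp.eval n = n + (cands (Bp.eval n)).length := by
    intro n
    rw [cands_length, hPp]
    simp only [Polynomial.eval_add, Polynomial.eval_mul, Polynomial.eval_C, Polynomial.eval_X]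
  have hV : PolyTime (fun u => [tst Bp g (unpair u)]) :=
    polyTime_of_poly (g := fun u => tst Bp g (unpair u)) ((poly_tst Bp hg).comp poly_unpair)
  obtain ⟨Vr, hVr, G, c, hG, hc, hocc, hsnd, hcmp⟩ := free_inputs hV Pp
  have hU : UPoly (fun x : List Bool => x.length) := UPoly.length NPC.Poly.id
  refine ⟨fun x => tmS code (eqs (G x) (c x) x.length (cands (Bp.eval x.length))), ?_, ?_, ?_⟩
  · exact poly_tmS poly_code (poly_eqs hG hU hc (poly_cands (UPoly.eval hU Bp)))
  · intro x
    exact tdeg_tmS code _ (eqs_len _ _ _ _)
  · intro o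
    constructor
    · intro b hb hLb
      -- the certificate
      set S := ren (g (o, b)) with hS
      have hw : (b ++ sel (Bp.eval o.length) S).length = Pp.eval o.length := by
        rw [hPe, List.length_append, sel_length, hb]
      have hVt : (fun u => [tst Bp g (unpair u)])
          (pairBits o (b ++ sel (Bp.eval o.length) S)) = [true] := by
        simp only [unpair_pairBits, tst]
        rw [pref_append hb]
        simp [hS]
      obtain ⟨τ, hτ, hτw⟩ := hcmp o _ hw hVt
      obtain ⟨v, hv⟩ := (qsat_ren (g (o, b))).2 ((hL o b).1 hLb)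
      have hsel : ∀ (k : ℕ) (hk : k < (cands (Bp.eval o.length)).length),
          τ (c o (o.length + k)) = true → HoldsQ v (cands (Bp.eval o.length))[k] := by
        intro k hk hτk
        rw [hτw _ (by rw [hPe]; omega), List.getD_eq_getElem?_getD,
          List.getElem?_append_right (by rw [hb]; omega),
          show o.length + k - b.length = k by rw [hb]; omega,
          List.getElem?_eq_getElem (by rw [sel_length]; exact hk)] at hτk
        simp only [sel, List.getElem_map, Option.getD_some, decide_eq_true_eq] at hτk
        exact hv _ hτk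
      obtain ⟨z, hz, hz0⟩ := complete (G := G o) (c := c o) (n := o.length)
        (C := cands (Bp.eval o.length)) hτ (v := v) (B := Bp.eval o.length)
        (fun d hd => of_mem_cands hd) hsel
      obtain ⟨y, hy, hy0⟩ := aeval_int code code_inj z _ hz
      refine ⟨y, ?_, hy0⟩
      have h1 := hy x0
      rw [code_x0] at h1
      rw [h1, hz0]
      congr 2
      apply List.ext_getElem
      · simp [hb]
      · intro i h1 h2
        rw [List.getElem_map, List.getElem_range]
        rw [hτw _ (by rw [hPe]; omega), List.getD_eq_getElem?_getD,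
          List.getElem?_append_left h2, List.getElem?_eq_getElem h2]
        rfl
    · intro y hy
      rw [aeval_tmS] at hy
      obtain ⟨τ, hτ, h0, v, hv⟩ := sound hy (fun i hi => hocc o i (by rw [hPe]; exact hi))
      have hV1 := hsnd o τ hτ
      simp only [unpair_pairBits, tst, List.cons.injEq, and_true, decide_eq_true_eq] at hV1
      set w := (List.range (Pp.eval o.length)).map (fun i => τ (c o i)) with hw
      have hwl : w.length = Pp.eval o.length := by simp [hw]
      have hp : (List.range o.length).map (fun i => τ (c o i)) = pref o.length w := by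
        unfold pref
        apply List.map_congr_left
        intro i hi
        rw [List.mem_range] at hi
        have hi' : i < w.length := by rw [hwl, hPe]; omega
        rw [List.getD_eq_getElem?_getD, List.getElem?_eq_getElem hi']
        simp [hw]
      rw [code_x0, hp] at h0
      refine ⟨pref o.length w, pref_length _ _, ?_, h0⟩
      rw [hL, ← qsat_ren]
      refine ⟨v, fun d hd => ?_⟩
      have hlt : ∀ i ∈ d.vars, i < Bp.eval o.length := by
        intro i hi
        have h1 := ren_lt _ d hd i hi
        have h2 := hBp o (pref o.length w) (pref_length _ _)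
        omega
      obtain ⟨k, hk, hkd⟩ := List.mem_iff_getElem.1 (mem_cands hlt)
      rw [← hkd]
      apply hv k hk
      have h3 : w[o.length + k]'(by rw [hwl, hPe]; omega) = τ (c o (o.length + k)) := by
        simp [hw]
      rw [← h3]
      have h4 : w[o.length + k]? = some true := by
        rw [hV1, List.getElem?_append_right (by rw [pref_length]; omega), pref_length,
          show o.length + k - o.length = k by omega,
          List.getElem?_eq_getElem (by rw [sel_length]; exact hk)]
        simp only [sel, List.getElem_map, hkd, hd, decide_true]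
      rw [List.getElem?_eq_getElem (by rw [hwl, hPe]; omega)] at h4
      exact Option.some_injective _ h4

end Pool.Agent.Helper89K9.NX
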