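import Pool.Agent.Helper89K9.NX.Eqs
import Pool.Agent.Helper89K9.NX.Free

/-!
# The system of quadratic equations
-/

set_option autoImplicit false

namespace Pool.Agent.Helper89K9.NX

open Pool.Agent.NPC Pool.Agent.NPC.CL Pool.Agent.H528R2

/-- the unknowns: the free one, those of the formula, and numbered auxiliary ones -/
abbrev Ix (Vr : Type) : Type := Unit ⊕ (Vr ⊕ (ℕ × ℕ))

section

variable {Vr : Type}

def x0 : Ix Vr := Sum.inl ()
def bv (v : Vr) : Ix Vr := Sum.inr (Sum.inl v)
def au (k i : ℕ) : Ix Vr := Sum.inr (Sum.inr (k, i))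

abbrev Eqn (Vr : Type) : Type := List (Bool × List (Ix Vr))

/-- the unknowns of the formula are `0` or `1` -/
def boolEqs (G : List (List (Bool × Vr))) : List (Eqn Vr) :=
  G.flatMap (fun cl => cl.map (fun l => [(false, [bv l.2, bv l.2]), (true, [bv l.2])]))

/-- the value of a literal -/
def litM (l : Bool × Vr) : Eqn Vr :=
  if l.1 then [(false, [bv l.2])] else [(false, []), (true, [bv l.2])]

/-- minus the sum of four squares -/
def sq4 (k i : ℕ) : Eqn Vr :=
  [(true, [au k i, au k i]), (true, [au k (i + 1), au k (i + 1)]),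
    (true, [au k (i + 2), au k (i + 2)]), (true, [au k (i + 3), au k (i + 3)])]

/-- every clause has a true literal -/
def clEqs (G : List (List (Bool × Vr))) : List (Eqn Vr) :=
  G.zipIdx.map (fun p => p.1.flatMap litM ++ ((true, []) :: sq4 1 (4 * p.2)))

/-- the free unknown has the given binary digits -/
def hornEqs (c : ℕ → Vr) (n : ℕ) : List (Eqn Vr) :=
  [(false, [x0]), (true, [au 0 0])] :: [(false, [au 0 n])] ::
    (List.range n).map (fun i =>
      [(false, [au 0 i]), (true, [bv (c i)]), (true, [au 0 (i + 1)]), (true, [au 0 (i + 1)])])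

/-- the homogenised constraint; `au 2 i / au 4 0` is the value of the variable `i` -/
def conM (c : ER.Con) : Eqn Vr :=
  match c with
  | .one i => [(false, [au 2 i]), (true, [au 4 0])]
  | .add i j k => [(false, [au 2 i]), (false, [au 2 j]), (true, [au 2 k])]
  | .mul i j k => [(false, [au 2 i, au 2 j]), (true, [au 2 k, au 4 0])]

/-- the selected constraints hold -/
def candEqs (c : ℕ → Vr) (n : ℕ) (C : List ER.Con) : List (Eqn Vr) :=
  C.zipIdx.flatMap (fun p =>
    [(true, [au 3 p.2]) :: conM p.1, [(false, [bv (c (n + p.2)), au 3 p.2])]])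

/-- `au 4 0` is not zero -/
def denEqs : List (Eqn Vr) :=
  [[(false, [au 4 2]), (true, [au 4 0, au 4 1])],
    (false, [au 4 2, au 4 2]) :: (true, []) :: sq4 4 3]

/-- all the equations -/
def eqs (G : List (List (Bool × Vr))) (c : ℕ → Vr) (n : ℕ) (C : List ER.Con) : List (Eqn Vr) :=
  boolEqs G ++ (clEqs G ++ (hornEqs c n ++ (candEqs c n C ++ denEqs)))

theorem conM_len (c : ER.Con) : ∀ m ∈ (conM c : Eqn Vr), m.2.length ≤ 2 := by
  intro m hm
  cases c with
  | one i =>
    simp only [conM, List.mem_cons, List.not_mem_nil, or_false] at hm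
    rcases hm with rfl | rfl <;> simp
  | add i j k =>
    simp only [conM, List.mem_cons, List.not_mem_nil, or_false] at hm
    rcases hm with rfl | rfl | rfl <;> simp
  | mul i j k =>
    simp only [conM, List.mem_cons, List.not_mem_nil, or_false] at hm
    rcases hm with rfl | rfl <;> simp

theorem sq4_len (k i : ℕ) : ∀ m ∈ (sq4 k i : Eqn Vr), m.2.length ≤ 2 := by
  intro m hm
  simp only [sq4, List.mem_cons, List.not_mem_nil, or_false] at hm
  rcases hm with rfl | rfl | rfl | rfl <;> simp

theorem denEqs_len : ∀ e ∈ (denEqs : List (Eqn Vr)), ∀ m ∈ e, m.2.length ≤ 2 := by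
  intro e he m hm
  simp only [denEqs, List.mem_cons, List.not_mem_nil, or_false] at he
  rcases he with rfl | rfl
  · simp only [List.mem_cons, List.not_mem_nil, or_false] at hm
    rcases hm with rfl | rfl <;> simp
  · rcases List.mem_cons.1 hm with rfl | hm
    · simp
    · rcases List.mem_cons.1 hm with rfl | hm
      · simp
      · exact sq4_len _ _ m hm

theorem eqs_len (G : List (List (Bool × Vr))) (c : ℕ → Vr) (n : ℕ) (C : List ER.Con) :
    ∀ e ∈ eqs G c n C, ∀ m ∈ e, m.2.length ≤ 2 := by
  intro e he m hm
  unfold eqs at he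
  rcases List.mem_append.1 he with he | he
  · unfold boolEqs at he
    obtain ⟨cl, _, he⟩ := List.mem_flatMap.1 he
    obtain ⟨l, _, rfl⟩ := List.mem_map.1 he
    simp only [List.mem_cons, List.not_mem_nil, or_false] at hm
    rcases hm with rfl | rfl <;> simp
  rcases List.mem_append.1 he with he | he
  · unfold clEqs at he
    obtain ⟨p, _, rfl⟩ := List.mem_map.1 he
    rcases List.mem_append.1 hm with hm | hm
    · obtain ⟨l, _, hm⟩ := List.mem_flatMap.1 hm
      unfold litM at hm
      split_ifs at hm
      · simp only [List.mem_cons, List.not_mem_nil, or_false] at hm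
        rw [hm]; simp
      · simp only [List.mem_cons, List.not_mem_nil, or_false] at hm
        rcases hm with rfl | rfl <;> simp
    · rcases List.mem_cons.1 hm with rfl | hm
      · simp
      · exact sq4_len _ _ m hm
  rcases List.mem_append.1 he with he | he
  · unfold hornEqs at he
    rcases List.mem_cons.1 he with rfl | he
    · simp only [List.mem_cons, List.not_mem_nil, or_false] at hm
      rcases hm with rfl | rfl <;> simp
    rcases List.mem_cons.1 he with rfl | he
    · simp only [List.mem_cons, List.not_mem_nil, or_false] at hm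
      rw [hm]; simp
    · obtain ⟨i, _, rfl⟩ := List.mem_map.1 he
      simp only [List.mem_cons, List.not_mem_nil, or_false] at hm
      rcases hm with rfl | rfl | rfl | rfl <;> simp
  rcases List.mem_append.1 he with he | he
  · unfold candEqs at he
    obtain ⟨p, _, he⟩ := List.mem_flatMap.1 he
    simp only [List.mem_cons, List.not_mem_nil, or_false] at he
    rcases he with rfl | rfl
    · rcases List.mem_cons.1 hm with rfl | hm
      · simp
      · exact conM_len _ m hm
    · simp only [List.mem_cons, List.not_mem_nil, or_false] at hm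
      rw [hm]; simp
  · exact denEqs_len e he m hm

/-! ### values -/

section

variable {R : Type} [CommRing R]

@[simp] theorem mval_pos0 {I : Type} (x : I → R) : mval x (false, []) = 1 := by simp [mval]
@[simp] theorem mval_neg0 {I : Type} (x : I → R) : mval x (true, []) = -1 := by simp [mval]
@[simp] theorem mval_pos1 {I : Type} (x : I → R) (a : I) : mval x (false, [a]) = x a := by
  simp [mval]
@[simp] theorem mval_neg1 {I : Type} (x : I → R) (a : I) : mval x (true, [a]) = - x a := by
  simp [mval]
@[simp] theorem mval_pos2 {I : Type} (x : I → R) (a b : I) :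
    mval x (false, [a, b]) = x a * x b := by simp [mval]
@[simp] theorem mval_neg2 {I : Type} (x : I → R) (a b : I) :
    mval x (true, [a, b]) = - (x a * x b) := by simp [mval]

theorem eval_sq4 (x : Ix Vr → R) (k i : ℕ) : eval x (sq4 k i) =
    - (x (au k i) * x (au k i) + x (au k (i + 1)) * x (au k (i + 1)) +
      x (au k (i + 2)) * x (au k (i + 2)) + x (au k (i + 3)) * x (au k (i + 3))) := by
  simp only [sq4, eval_cons, eval_nil, mval_neg2]
  ring

theorem eval_litM (x : Ix Vr → R) (τ : Vr → Bool) (l : Bool × Vr)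
    (h : x (bv l.2) = if τ l.2 then 1 else 0) :
    eval x (litM l) = if τ l.2 = l.1 then 1 else 0 := by
  unfold litM
  cases hl : l.1
  · simp only [Bool.false_eq_true, if_false, eval_cons, eval_nil, mval_pos0, mval_neg1, h]
    cases τ l.2 <;> simp
  · simp only [if_true, eval_cons, eval_nil, mval_pos1, h]
    cases τ l.2 <;> simp

theorem eval_lits (x : Ix Vr → R) (τ : Vr → Bool) (cl : List (Bool × Vr))
    (h : ∀ l ∈ cl, x (bv l.2) = if τ l.2 then 1 else 0) :
    eval x (cl.flatMap litM) = (cl.map (fun l => if τ l.2 = l.1 then (1 : R) else 0)).sum := by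
  induction cl with
  | nil => simp
  | cons l cl ih =>
    rw [List.flatMap_cons, eval_append, eval_litM x τ l (h l (by simp)),
      ih (fun l hl => h l (by simp [hl]))]
    simp

end

/-! ### from solutions to assignments -/

theorem horner (x : Ix Vr → ℚ) (c : ℕ → Vr) (n : ℕ) (τ : Vr → Bool)
    (hb : ∀ i < n, x (bv (c i)) = if τ (c i) then 1 else 0)
    (h0 : x x0 = x (au 0 0)) (hn : x (au 0 n) = 0)
    (hh : ∀ i < n, x (au 0 i) = x (bv (c i)) + x (au 0 (i + 1)) + x (au 0 (i + 1))) :
    x x0 = ((valB ((List.range n).map (fun i => τ (c i))) : ℕ) : ℚ) := by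
  have key : ∀ j ≤ n, x (au 0 (n - j)) =
      ((valB (((List.range n).map (fun i => τ (c i))).drop (n - j)) : ℕ) : ℚ) := by
    intro j
    induction j with
    | zero =>
      intro _
      rw [Nat.sub_zero, hn, List.drop_of_length_le (by simp)]
      simp
    | succ j ih =>
      intro hj
      have h1 := ih (by omega)
      have hlt : n - (j + 1) < ((List.range n).map (fun i => τ (c i))).length := by
        simp only [List.length_map, List.length_range]; omega
      rw [hh _ (by omega), hb _ (by omega), List.drop_eq_getElem_cons hlt, valB_cons,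
        show n - (j + 1) + 1 = n - j by omega, h1]
      simp only [List.getElem_map, List.getElem_range]
      cases τ (c (n - (j + 1))) <;> push_cast <;> simp <;> ring
  have := key n le_rfl
  rw [Nat.sub_self, List.drop_zero] at this
  rw [h0, this]

theorem conM_iff (x : Ix Vr → ℚ) (hd : x (au 4 0) ≠ 0) (c : ER.Con) :
    eval x (conM c) = 0 ↔ HoldsQ (fun i => x (au 2 i) / x (au 4 0)) c := by
  cases c with
  | one i =>
    simp only [conM, eval_cons, eval_nil, mval_pos1, mval_neg1, HoldsQ]
    rw [div_eq_one_iff_eq hd]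
    constructor <;> intro h <;> linarith
  | add i j k =>
    simp only [conM, eval_cons, eval_nil, mval_pos1, mval_neg1, HoldsQ]
    rw [← add_div, div_left_inj' hd]
    constructor <;> intro h <;> linarith
  | mul i j k =>
    simp only [conM, eval_cons, eval_nil, mval_pos2, mval_neg2, HoldsQ]
    rw [div_mul_div_comm, div_eq_div_iff (mul_ne_zero hd hd) hd]
    constructor
    · intro h
      have h1 : x (au 2 i) * x (au 2 j) = x (au 2 k) * x (au 4 0) := by linarith
      rw [h1]; ring
    · intro h
      have h1 : (x (au 2 i) * x (au 2 j) - x (au 2 k) * x (au 4 0)) * x (au 4 0) = 0 := by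
        linear_combination h
      rcases mul_eq_zero.1 h1 with h2 | h2
      · linarith
      · exact absurd h2 hd

theorem den_ne {x : Ix Vr → ℚ} (h : ∀ e ∈ (denEqs : List (Eqn Vr)), eval x e = 0) :
    x (au 4 0) ≠ 0 := by
  have h1 := h _ (List.mem_cons_self)
  have h2 := h _ (List.mem_cons_of_mem _ (List.mem_cons_self))
  simp only [eval_cons, eval_nil, mval_pos1, mval_neg2, mval_pos2, mval_neg0, eval_sq4] at h1 h2
  intro h0
  rw [h0] at h1
  have h3 : x (au 4 2) = 0 := by linarith
  rw [h3] at h2
  nlinarith [mul_self_nonneg (x (au 4 3)), mul_self_nonneg (x (au 4 (3 + 1))),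
    mul_self_nonneg (x (au 4 (3 + 2))), mul_self_nonneg (x (au 4 (3 + 3)))]

theorem sound {G : List (List (Bool × Vr))} {c : ℕ → Vr} {n : ℕ} {C : List ER.Con}
    {x : Ix Vr → ℚ} (hx : ∀ e ∈ eqs G c n C, eval x e = 0)
    (hocc : ∀ i < n + C.length, ∃ cl ∈ G, ∃ b, (b, c i) ∈ cl) :
    ∃ τ : Vr → Bool, Holds τ G ∧
      x x0 = ((valB ((List.range n).map (fun i => τ (c i))) : ℕ) : ℚ) ∧
      ∃ v : ℕ → ℚ, ∀ (k : ℕ) (hk : k < C.length), τ (c (n + k)) = true → HoldsQ v C[k] := by
  classical
  have hx1 : ∀ e ∈ boolEqs G, eval x e = 0 := fun e he => hx e (List.mem_append_left _ he)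
  have hx2 : ∀ e ∈ clEqs G, eval x e = 0 := fun e he => hx e
    (List.mem_append_right _ (List.mem_append_left _ he))
  have hx3 : ∀ e ∈ hornEqs c n, eval x e = 0 := fun e he => hx e
    (List.mem_append_right _ (List.mem_append_right _ (List.mem_append_left _ he)))
  have hx4 : ∀ e ∈ candEqs c n C, eval x e = 0 := fun e he => hx e
    (List.mem_append_right _ (List.mem_append_right _ (List.mem_append_right _
      (List.mem_append_left _ he))))
  have hx5 : ∀ e ∈ (denEqs : List (Eqn Vr)), eval x e = 0 := fun e he => hx e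
    (List.mem_append_right _ (List.mem_append_right _ (List.mem_append_right _
      (List.mem_append_right _ he))))
  have hbool : ∀ cl ∈ G, ∀ l ∈ cl, x (bv l.2) = if decide (x (bv l.2) = 1) then 1 else 0 := by
    intro cl hcl l hl
    have := hx1 [(false, [bv l.2, bv l.2]), (true, [bv l.2])]
      (List.mem_flatMap.2 ⟨cl, hcl, List.mem_map.2 ⟨l, hl, rfl⟩⟩)
    simp only [eval_cons, eval_nil, mval_pos2, mval_neg1] at this
    have h2 : x (bv l.2) * (x (bv l.2) - 1) = 0 := by linarith
    rcases mul_eq_zero.1 h2 with h3 | h3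
    · simp [h3]
    · have : x (bv l.2) = 1 := by linarith
      simp [this]
  refine ⟨fun v => decide (x (bv v) = 1), ?_, ?_, ?_⟩
  · intro cl hcl
    by_contra hne
    push Not at hne
    obtain ⟨k, hk⟩ := List.mem_iff_getElem?.1 hcl
    have h1 := hx2 (cl.flatMap litM ++ ((true, []) :: sq4 1 (4 * k)))
      (List.mem_map.2 ⟨(cl, k), List.mem_zipIdx_iff_getElem?.2 hk, rfl⟩)
    rw [eval_append, eval_cons, mval_neg0, eval_sq4,
      eval_lits x (fun v => decide (x (bv v) = 1)) cl (fun l hl => hbool cl hcl l hl)] at h1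
    have h2 : (cl.map (fun l => if (decide (x (bv l.2) = 1)) = l.1 then (1 : ℚ) else 0)).sum = 0 := by
      apply List.sum_eq_zero
      intro r hr
      obtain ⟨l, hl, rfl⟩ := List.mem_map.1 hr
      rw [if_neg (hne l hl)]
    rw [h2] at h1
    nlinarith [mul_self_nonneg (x (au 1 (4 * k))), mul_self_nonneg (x (au 1 (4 * k + 1))),
      mul_self_nonneg (x (au 1 (4 * k + 2))), mul_self_nonneg (x (au 1 (4 * k + 3)))]
  · refine horner x c n (fun v => decide (x (bv v) = 1)) ?_ ?_ ?_ ?_
    · intro i hi
      obtain ⟨cl, hcl, b, hb⟩ := hocc i (by omega)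
      exact hbool cl hcl _ hb
    · have := hx3 _ (List.mem_cons_self)
      simp only [eval_cons, eval_nil, mval_pos1, mval_neg1] at this
      linarith
    · have := hx3 _ (List.mem_cons_of_mem _ (List.mem_cons_self))
      simp only [eval_cons, eval_nil, mval_pos1] at this
      linarith
    · intro i hi
      have := hx3 [(false, [au 0 i]), (true, [bv (c i)]), (true, [au 0 (i + 1)]),
        (true, [au 0 (i + 1)])] (List.mem_cons_of_mem _ (List.mem_cons_of_mem _
          (List.mem_map.2 ⟨i, List.mem_range.2 hi, rfl⟩)))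
      simp only [eval_cons, eval_nil, mval_pos1, mval_neg1] at this
      linarith
  · refine ⟨fun i => x (au 2 i) / x (au 4 0), fun k hk hτ => ?_⟩
    rw [← conM_iff x (den_ne hx5)]
    have hmem : (C[k], k) ∈ C.zipIdx := List.mem_zipIdx_iff_getElem?.2 (List.getElem?_eq_getElem hk)
    have h1 := hx4 ((true, [au 3 k]) :: conM C[k]) (List.mem_flatMap.2 ⟨_, hmem, by simp⟩)
    have h2 := hx4 [(false, [bv (c (n + k)), au 3 k])] (List.mem_flatMap.2 ⟨_, hmem, by simp⟩)
    simp only [eval_cons, eval_nil, mval_neg1, mval_pos2] at h1 h2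
    have h3 : x (bv (c (n + k))) = 1 := by simpa using hτ
    rw [h3] at h2
    linarith

end

end Pool.Agent.Helper89K9.NX
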