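import Pool.Agent.Helper89K9.NX.Lang

/-!
# Bounded integral zeros of polynomials, uniformly
-/

set_option autoImplicit false

namespace Pool.Agent.Helper89K9.NX

open Pool.Agent.NPC Pool.Agent.NPC.CL Pool.Agent.H528R2 Pool.Agent.NPC.H532

/-- The polynomial given by a list of monomials (coefficient, indices of the unknowns). -/
noncomputable def ofMon (F : List (ℤ × List ℕ)) : MvPolynomial ℕ ℤ :=
  (F.map (fun m => MvPolynomial.C m.1 * (m.2.map MvPolynomial.X).prod)).sum

/-- the value at a point -/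
def evalM (z : ℕ → ℤ) (F : List (ℤ × List ℕ)) : ℤ :=
  (F.map (fun m => m.1 * (m.2.map z).prod)).sum

theorem eval_ofMon (z : ℕ → ℤ) (F : List (ℤ × List ℕ)) :
    MvPolynomial.eval z (ofMon F) = evalM z F := by
  unfold ofMon evalM
  induction F with
  | nil => simp
  | cons m F ih =>
    rw [List.map_cons, List.sum_cons, map_add, ih, List.map_cons, List.sum_cons, map_mul,
      MvPolynomial.eval_C, map_list_prod, List.map_map]
    congr 3
    apply List.map_congr_left
    intro i _
    simp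

theorem evalM_congr {z z' : ℕ → ℤ} {F : List (ℤ × List ℕ)}
    (h : ∀ m ∈ F, ∀ i ∈ m.2, z i = z' i) : evalM z F = evalM z' F := by
  unfold evalM
  congr 1
  apply List.map_congr_left
  intro m hm
  congr 2
  exact List.map_congr_left (h m hm)

theorem ib_prod (l : List ℤ) : ib l.prod ≤ sz l := by
  induction l with
  | nil => simp [ib_one]
  | cons a l ih =>
    rw [List.prod_cons, sz_list_cons]
    have h1 := ib_mul a l.prod
    have h2 := ib_le_sz a
    omega

theorem sz_take (l : List ℤ) (k : ℕ) : sz (l.take k) ≤ sz l := by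
  induction l generalizing k with
  | nil => simp
  | cons a l ih =>
    cases k with
    | zero => simp
    | succ k =>
      rw [List.take_succ_cons, sz_list_cons, sz_list_cons]
      have := ih k
      omega

section

variable {α : Type} [TEnc α]

theorem Poly_prodZ {l : α → List ℤ} (hl : NPC.Poly l) : NPC.Poly (fun a => (l a).prod) := by
  obtain ⟨r, hr⟩ := hl.sz_le
  have hF : NPC.Poly (fun p : α × ℤ × ℤ => p.2.1 * p.2.2) :=
    Poly_mulZ (NPC.Poly.fst (NPC.Poly.snd NPC.Poly.id)) (NPC.Poly.snd (NPC.Poly.snd NPC.Poly.id))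
  refine (NPC.Poly.foldl (s := fun _ => (1 : ℤ)) (F := fun _ s b => s * b) hl
    (NPC.Poly.const _) hF (Polynomial.C 4 * r + Polynomial.C 5) ?_).congr fun a => ?_
  · intro a k hk
    have e : ((l a).take k).foldl (fun s b => s * b) 1 = ((l a).take k).prod :=
      List.prod_eq_foldl.symm
    rw [e]
    have h1 := sz_int_le ((l a).take k).prod
    have h2 := ib_prod ((l a).take k)
    have h3 := sz_take (l a) k
    have h4 := hr a
    simp only [Polynomial.eval_add, Polynomial.eval_mul, Polynomial.eval_C]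
    omega
  · exact List.prod_eq_foldl.symm

theorem poly_evalM {l : α → List ℤ} {F : α → List (ℤ × List ℕ)} (hl : NPC.Poly l)
    (hF : NPC.Poly F) : NPC.Poly (fun a => evalM (fun i => (l a).getD i 0) (F a)) := by
  have h1 : NPC.Poly (fun q : (α × (ℤ × List ℕ)) × ℕ => (l q.1.1).getD q.2 0) :=
    NPC.Poly.getD (hl.comp (NPC.Poly.fst (NPC.Poly.fst NPC.Poly.id))) (NPC.Poly.snd NPC.Poly.id)
      (NPC.Poly.const 0)
  have h2 : NPC.Poly (fun q : α × (ℤ × List ℕ) => q.2.2.map (fun i => (l q.1).getD i 0)) :=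
    NPC.Poly.map (F := fun (q : α × (ℤ × List ℕ)) (i : ℕ) => (l q.1).getD i 0)
      (NPC.Poly.snd (NPC.Poly.snd NPC.Poly.id)) h1
  have h3 : NPC.Poly (fun q : α × (ℤ × List ℕ) =>
      q.2.1 * (q.2.2.map (fun i => (l q.1).getD i 0)).prod) :=
    Poly_mulZ (NPC.Poly.fst (NPC.Poly.snd NPC.Poly.id)) (Poly_prodZ h2)
  exact Poly_sumZ (NPC.Poly.map (F := fun a (m : ℤ × List ℕ) =>
    m.1 * (m.2.map (fun i => (l a).getD i 0)).prod) hF h3)

end

theorem ib_le_iff' (z : ℤ) (k : ℕ) : ib z ≤ k ↔ |z| < 2 ^ k := by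
  rw [ib_le_iff, Int.abs_eq_natAbs]
  constructor
  · intro h; exact_mod_cast h
  · intro h; exact_mod_cast h

/-- the test of a certificate -/
def tstZ (b : List Bool) (Fn : List (ℤ × List ℕ) × List Unit) (zs : List ℤ) : Bool :=
  decide ((zs.all (fun z => decide (z.natAbs.bits.length ≤ 2 ^ Fn.2.length)) = true ∧
    evalM (fun i => zs.getD i 0) Fn.1 = 0) ∧
    (zs.getD 0 0 = (valB b : ℤ) ∧ valB b < 2 ^ Fn.2.length))

/-- the test, on strings -/
def tstU (p : List Bool × List Bool) : Bool :=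
  match unbits (List (ℤ × List ℕ) × List Unit) (unpair p.1).1 with
  | none => false
  | some Fn => (match unbits (List ℤ) p.2 with
    | none => false
    | some zs => tstZ (unpair p.1).2 Fn zs)

theorem poly_tstZ {α : Type} [TEnc α] {b : α → List Bool}
    {Fn : α → List (ℤ × List ℕ) × List Unit} {zs : α → List ℤ} (hb : NPC.Poly b)
    (hF : NPC.Poly Fn) (hz : NPC.Poly zs) : NPC.Poly (fun a => tstZ (b a) (Fn a) (zs a)) := by
  have h1 : NPC.Poly (fun q : α × ℤ => q.2.natAbs.bits.length) :=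
    NPC.Poly.length (NPC.Poly.natBits (Poly_natAbs (NPC.Poly.snd NPC.Poly.id)))
  have hU : UPoly (fun a => (Fn a).2.length) := UPoly.length (NPC.Poly.snd hF)
  have h2 : NPC.Poly (fun q : α × ℤ => 2 ^ (Fn q.1).2.length) :=
    poly_two_pow (hU.comp (NPC.Poly.fst NPC.Poly.id))
  have h3 : NPC.Poly (fun a => (zs a).all
      (fun z => decide (z.natAbs.bits.length ≤ 2 ^ (Fn a).2.length))) :=
    NPC.Poly.all (p := fun a (z : ℤ) => decide (z.natAbs.bits.length ≤ 2 ^ (Fn a).2.length)) hz
      (NPC.Poly.decide_le h1 h2)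
  have h4 : NPC.Poly (fun a => evalM (fun i => (zs a).getD i 0) (Fn a).1) :=
    poly_evalM hz (NPC.Poly.fst hF)
  have h5 : NPC.Poly (fun a => (zs a).getD 0 0) :=
    NPC.Poly.getD hz (NPC.Poly.const 0) (NPC.Poly.const 0)
  have h6 : NPC.Poly (fun a => ((valB (b a) : ℕ) : ℤ)) := Poly_ofNat (NPC.Poly.valBits hb)
  exact NPC.Poly.decide_and (NPC.Poly.decide_and (NPC.Poly.decide_bool h3)
    (NPC.Poly.decide_eq h4 (NPC.Poly.const 0)))
    (NPC.Poly.decide_and (NPC.Poly.decide_eq h5 h6)
      (NPC.Poly.decide_lt (NPC.Poly.valBits hb) (poly_two_pow hU)))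

theorem poly_tstU : NPC.Poly tstU := by
  have hu : NPC.Poly (fun p : List Bool × List Bool => unpair p.1) :=
    poly_unpair.comp (NPC.Poly.fst NPC.Poly.id)
  refine (NPC.Poly.optCases (o := fun p : List Bool × List Bool =>
      unbits (List (ℤ × List ℕ) × List Unit) (unpair p.1).1)
    (g := fun _ => false) (h := fun p Fn => match unbits (List ℤ) p.2 with
      | none => false
      | some zs => tstZ (unpair p.1).2 Fn zs)
    (poly_unbits.comp (NPC.Poly.fst hu)) (NPC.Poly.const false) ?_).congr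
    (fun p => by
      unfold tstU
      cases unbits (List (ℤ × List ℕ) × List Unit) (unpair p.1).1 <;> rfl)
  refine (NPC.Poly.optCases
    (o := fun q : (List Bool × List Bool) × (List (ℤ × List ℕ) × List Unit) =>
      unbits (List ℤ) q.1.2) (g := fun _ => false)
    (h := fun q zs => tstZ (unpair q.1.1).2 q.2 zs)
    (poly_unbits.comp (NPC.Poly.snd (NPC.Poly.fst NPC.Poly.id))) (NPC.Poly.const false) ?_).congr
    (fun q => by cases unbits (List ℤ) q.1.2 <;> rfl)
  exact poly_tstZ (NPC.Poly.snd (hu.comp (NPC.Poly.fst (NPC.Poly.fst NPC.Poly.id))))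
    (NPC.Poly.snd (NPC.Poly.fst NPC.Poly.id)) (NPC.Poly.snd NPC.Poly.id)

/-- the relation: `a` is the first coordinate of a bounded zero -/
def zeroL : Set (List Bool) :=
  {u | ∃ w : List Bool, w.length ≤ 2 ^ ((Polynomial.X + Polynomial.C 4).eval u.length) ∧
    tstU (u, w) = true}

theorem inNEXP_zeroL : InNEXP zeroL := inNEXP_of poly_tstU _

theorem lt_two_pow_sz {F : List (ℤ × List ℕ)} {m : ℤ × List ℕ} (hm : m ∈ F) {i : ℕ}
    (hi : i ∈ m.2) : i < 2 ^ sz F := by
  have h1 := sz_le_of_mem hm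
  have h2 := sz_le_of_mem hi
  have h3 : sz m = sz m.1 + sz m.2 + 1 := sz_pair m.1 m.2
  have h4 := size_le_sz i
  have h5 : i < 2 ^ i.size := Nat.lt_size_self i
  exact lt_of_lt_of_le h5 (Nat.pow_le_pow_right (by norm_num) (by omega))

theorem mem_zeroL (F : List (ℤ × List ℕ)) (n a : ℕ) :
    pairBits (bits (F, List.replicate n ())) a.bits ∈ zeroL ↔
      a < 2 ^ n ∧ ∃ z : ℕ → ℤ, (∀ i, |z i| < 2 ^ 2 ^ n) ∧ evalM z F = 0 ∧ z 0 = (a : ℤ) := by
  unfold zeroL
  rw [Set.mem_ofPred_eq]
  simp only [tstU, unpair_pairBits, unbits_bits]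
  constructor
  · rintro ⟨w, _, hw⟩
    cases hu : unbits (List ℤ) w with
    | none => rw [hu] at hw; simp at hw
    | some zs =>
      rw [hu] at hw
      simp only [tstZ, decide_eq_true_eq, List.all_eq_true, List.length_replicate,
        valB_bits] at hw
      obtain ⟨⟨h1, h2⟩, h3, h4⟩ := hw
      refine ⟨h4, fun i => zs.getD i 0, fun i => ?_, h2, h3⟩
      by_cases hi : i < zs.length
      · change |zs.getD i 0| < _
        rw [List.getD_eq_getElem _ _ hi]
        have h5 := h1 _ (List.getElem_mem hi)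
        rw [Nat.size_eq_bits_len] at h5
        exact (ib_le_iff' _ _).1 h5
      · change |zs.getD i 0| < _
        rw [List.getD_eq_default _ _ (not_lt.1 hi), abs_zero]
        positivity
  · rintro ⟨ha, z, hz, hF, h0⟩
    set M := 2 ^ sz F with hM
    have hM1 : 1 ≤ M := Nat.one_le_two_pow
    set zs : List ℤ := (List.range M).map z with hzs
    have hzl : zs.length = M := by simp [hzs]
    have hget : ∀ i < M, zs.getD i 0 = z i := by
      intro i hi
      rw [List.getD_eq_getElem _ _ (by rw [hzl]; exact hi)]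
      simp [hzs]
    have hib : ∀ x ∈ zs, ib x ≤ 2 ^ n := by
      intro x hx
      obtain ⟨i, _, rfl⟩ := List.mem_map.1 hx
      exact (ib_le_iff' _ _).2 (hz _)
    refine ⟨bits zs, ?_, ?_⟩
    · rw [bits_length]
      have h2 := sz_le_length_mul zs (4 * 2 ^ n + 5) (fun x hx =>
        (sz_int_le x).trans (by have := hib x hx; omega))
      rw [hzl] at h2
      have h5 : 1 ≤ 2 ^ n := Nat.one_le_two_pow
      have h6 : (pairBits (bits (F, List.replicate n ())) a.bits).length ≥ sz F + n := by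
        have h7 : (pairBits (bits (F, List.replicate n ())) a.bits).length =
            2 * (bits (F, List.replicate n ())).length + 1 + a.bits.length := by
          simp only [pairBits, List.length_append, List.length_cons, List.length_flatMap]
          simp
          omega
        rw [h7, bits_length, sz_pair]
        have h8 := length_lt_sz (List.replicate n ())
        rw [List.length_replicate] at h8
        omega
      simp only [Polynomial.eval_add, Polynomial.eval_X, Polynomial.eval_C]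
      calc sz zs ≤ M * (4 * 2 ^ n + 5 + 1) + 1 := h2
        _ ≤ M * (16 * 2 ^ n) := by nlinarith
        _ = 2 ^ (sz F + n + 4) := by rw [hM, pow_add, pow_add]; ring
        _ ≤ _ := Nat.pow_le_pow_right (by norm_num) (by omega)
    · rw [unbits_bits]
      simp only [tstZ, decide_eq_true_eq, List.all_eq_true, List.length_replicate, valB_bits]
      refine ⟨⟨fun x hx => ?_, ?_⟩, ?_, ha⟩
      · rw [Nat.size_eq_bits_len]
        exact hib x hx
      · exact (evalM_congr fun m hm i hi => hget i (lt_two_pow_sz hm hi)).trans hF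
      · rw [hget 0 (by omega), h0]

/-- the bounded translation from `ℤ` to the subrings of `ℚ` -/
theorem translation : ∃ P : List (ℤ × List ℕ) → ℕ → ER.Tm,
    (∃ G : List Bool → List Bool, PolyTime G ∧
      ∀ F n, G (bits (F, List.replicate n ())) = bits (P F n)) ∧
    ∀ F n, (toMv (P F n)).totalDegree ≤ 4 ∧ ∀ (R : Subring ℚ) (q : ℚ), Sol (P F n) R q ↔
      ∃ z : ℕ → ℤ, (∀ i, |z i| < 2 ^ 2 ^ n) ∧ MvPolynomial.eval z (ofMon F) = 0 ∧
        0 ≤ z 0 ∧ z 0 < 2 ^ n ∧ q = z 0 := by
  obtain ⟨P, hP, h⟩ := slices_rel inNEXP_zeroL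
  refine ⟨fun F n => P (bits (F, List.replicate n ())), ⟨_, hP, fun F n => rfl⟩,
    fun F n => ⟨(h _).1, fun R q => ?_⟩⟩
  rw [(h _).2 R q]
  constructor
  · rintro ⟨a, _, haL, rfl⟩
    obtain ⟨h1, z, h2, h3, h4⟩ := (mem_zeroL F n a).1 haL
    exact ⟨z, h2, by rw [eval_ofMon, h3], by omega, by rw [h4]; exact_mod_cast h1, by simp [h4]⟩
  · rintro ⟨z, h2, h3, h4, h5, rfl⟩
    obtain ⟨a, ha⟩ := Int.eq_ofNat_of_zero_le h4
    have h1 : a < 2 ^ n := by
      rw [ha] at h5
      exact_mod_cast h5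
    refine ⟨a, lt_of_lt_of_le h1 (Nat.pow_le_pow_right (by norm_num) ?_),
      (mem_zeroL F n a).2 ⟨h1, z, h2, by rw [← eval_ofMon, h3], ha⟩, by rw [ha]; simp⟩
    rw [bits_length, sz_pair]
    have h8 := length_lt_sz (List.replicate n ())
    rw [List.length_replicate] at h8
    omega

/-! ### hardness -/

/-- Hilbert's tenth problem over `R` for polynomials of degree at most `4`. -/
def H10 (R : Subring ℚ) : Set (List Bool) :=
  lang (fun t : ER.Tm => (toMv t).totalDegree ≤ 4 ∧
    ∃ y : ℕ → ℚ, (∀ i, y i ∈ R) ∧ MvPolynomial.aeval y (toMv t) = 0)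

theorem hard_H10 (R : Subring ℚ) : NEXPHard (H10 R) := by
  intro L hL
  have hL' : InNEXP {u | (unpair u).1 ∈ L} := inNEXP_comap hL (NPC.Poly.fst poly_unpair)
  obtain ⟨P, hP, h⟩ := slices_rel hL'
  refine ⟨_, hP, fun x => ?_⟩
  unfold H10
  rw [bits_mem_lang]
  have h1 : ∀ a : ℕ, pairBits x a.bits ∈ ({u | (unpair u).1 ∈ L} : Set (List Bool)) ↔ x ∈ L := by
    intro a
    rw [Set.mem_ofPred_eq, unpair_pairBits]
  constructor
  · intro hx
    obtain ⟨y, h2, h3, h4⟩ := ((h x).2 R 0).2 ⟨0, Nat.two_pow_pos _, (h1 0).2 hx, by simp⟩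
    exact ⟨(h x).1, y, h2, h4⟩
  · rintro ⟨_, y, h2, h4⟩
    obtain ⟨a, _, h5, _⟩ := ((h x).2 R (y 0)).1 ⟨y, h2, rfl, h4⟩
    exact (h1 a).1 h5

end Pool.Agent.Helper89K9.NX
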